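import Pool.Agent.Run7.h738.PG.Near2

/-! # Close pairs of sites of a self-avoiding polygon: the final form -/

set_option autoImplicit false

namespace Run7.h738.PG

open scoped Classical
open Pool.Agent.W840.CT Run7.h738.ND Run7.h738.NC
open Pool.Agent.TH546.SG (CU2)

/-- pairs of close sites, one on an arc and one off it -/
noncomputable def XA (w : ℕ) {m : ℕ} (f : ZMod m → ℤ × ℤ) (s : ZMod m) (a : ℕ) : ℕ :=
  ({q | (q.1 - s).val < a ∧ a ≤ (q.2 - s).val ∧ D (f q.1) (f q.2) ≤ w} :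
    Set (ZMod m × ZMod m)).ncard

theorem ball_le (w : ℕ) {m : ℕ} (hm : 0 < m) {f : ZMod m → ℤ × ℤ} (hf : Function.Injective f)
    (s : ZMod m) : ({i | D (f i) (f s) ≤ w} : Set (ZMod m)).ncard ≤ (2 * w + 1) ^ 2 := by
  have h1 : ({i | D (f i) (f s) ≤ w} : Set (ZMod m)).ncard ≤
      (((Finset.Icc (-(w : ℤ)) w) ×ˢ (Finset.Icc (-(w : ℤ)) w) : Finset (ℤ × ℤ)) :
        Set (ℤ × ℤ)).ncard := by
    refine Set.ncard_le_ncard_of_injOn (fun i => f i - f s) ?_ ?_ (Finset.finite_toSet _)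
    · intro i hi
      have hi' : D (f i) (f s) ≤ w := hi
      unfold D at hi'
      rw [Finset.mem_coe, Finset.mem_product, Finset.mem_Icc, Finset.mem_Icc]
      simp only [Prod.fst_sub, Prod.snd_sub]
      omega
    · intro i _ j _ h
      exact hf (sub_left_injective h)
  refine h1.trans ?_
  rw [Set.ncard_coe_finset, Finset.card_product, Int.card_Icc]
  have : ((w : ℤ) + 1 - -(w : ℤ)).toNat = 2 * w + 1 := by omega
  rw [this, sq]

theorem XA_le (w : ℕ) {m : ℕ} (hm : 0 < m) {f : ZMod m → ℤ × ℤ} (hf : Function.Injective f)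
    (s : ZMod m) (a : ℕ) :
    XA w f s a ≤ CA w f (s - 1) a (m - 1 - a) + (2 * w + 1) ^ 2 := by
  have hmn : NeZero m := ⟨by omega⟩
  set T : Finset (ZMod m × ZMod m) := 
    (((Finset.range (a + 1) ×ˢ Finset.range (m - 1 - a + 1)).filter (fun q => q.1 ≠ 0 ∧ q.2 ≠ 0 ∧
      D (f ((s - 1) + (q.1 : ZMod m))) (f ((s - 1) - (q.2 : ZMod m)))
        ≤ w))).image (fun p => ((s - 1) + (p.1 : ZMod m), (s - 1) - (p.2 : ZMod m))) with hT
  have h1 : ({q | (q.1 - s).val < a ∧ a ≤ (q.2 - s).val ∧ D (f q.1) (f q.2) ≤ w} :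
      Set (ZMod m × ZMod m)) ⊆ (T : Set (ZMod m × ZMod m)) ∪
        (fun i => (i, s - 1)) '' ({i | D (f i) (f (s - 1)) ≤ w} : Set (ZMod m)) := by
    rintro ⟨i, j⟩ ⟨h1, h2, h3⟩
    simp only at h1 h2 h3
    set t := (i - s).val with ht
    set u := (j - s).val with hu
    have hum : u < m := ZMod.val_lt _
    have hi : i = (s - 1) + ((t + 1 : ℕ) : ZMod m) := by
      push_cast
      rw [ht, ZMod.natCast_zmod_val]
      ring
    have hj : j = (s - 1) - ((m - 1 - u : ℕ) : ZMod m) := by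
      rw [Nat.sub_sub, Nat.cast_sub (by omega), ZMod.natCast_self]
      push_cast
      rw [hu, ZMod.natCast_zmod_val]
      ring
    rcases Nat.eq_zero_or_pos (m - 1 - u) with h0 | h0
    · right
      rw [h0, Nat.cast_zero, sub_zero] at hj
      refine ⟨i, ?_, ?_⟩
      · change D (f i) (f (s - 1)) ≤ w
        rw [← hj]
        exact h3
      · simp only
        rw [hj]
    · left
      rw [hT, Finset.mem_coe, Finset.mem_image]
      refine ⟨(t + 1, m - 1 - u), ?_, ?_⟩
      · rw [Finset.mem_filter, Finset.mem_product, Finset.mem_range, Finset.mem_range]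
        refine ⟨⟨by omega, by omega⟩, by omega, by omega, ?_⟩
        simp only
        rw [← hi, ← hj]
        exact h3
      · simp only
        rw [← hi, ← hj]
  unfold XA
  refine (Set.ncard_le_ncard h1 (Set.toFinite _)).trans ?_
  refine (Set.ncard_union_le _ _).trans (add_le_add ?_ ?_)
  · rw [Set.ncard_coe_finset, hT]
    exact Finset.card_image_le
  · exact (Set.ncard_image_le (Set.toFinite _)).trans (ball_le w hm hf _)

theorem nine_pow (w : ℕ) : (2 * w + 1) ^ 2 ≤ 9 ^ w := by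
  have h : 2 * w + 1 ≤ 3 ^ w := by
    induction w with
    | zero => norm_num
    | succ w ih =>
      rw [pow_succ]
      omega
  calc (2 * w + 1) ^ 2 ≤ (3 ^ w) ^ 2 := Nat.pow_le_pow_left h 2
    _ = 9 ^ w := by rw [← pow_mul, mul_comm, pow_mul]; norm_num

theorem all_close : ∃ K : ℝ, 1 < K ∧ ∀ w n : ℕ, 1 ≤ w → 2 ≤ n → ∀ x : ℝ, 0 ≤ x →
    (({f | Loop (2 * n) f ∧ ¬ ((∀ (s : ZMod (2 * n)) (a : ℕ),
          (XA w f s a : ℝ) ≤ K ^ w * (Real.log n ^ 2 + x)) ∧
        ∀ l : ℕ, 1 ≤ l → (FA w f l : ℝ) ≤ K ^ w * ((n : ℝ) / l) * (Real.log n ^ 2 + x))} :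
      Set (ZMod (2 * n) → ℤ × ℤ)).ncard : ℝ) ≤
    Real.exp (-x) * (({f | Loop (2 * n) f} : Set (ZMod (2 * n) → ℤ × ℤ)).ncard : ℝ) := by
  obtain ⟨K, hK, hu⟩ := CU2
  obtain ⟨K', hK', hlow⟩ := loops_lower
  have hK1 := K1_pos
  have hlK := Real.log_pos hK1
  set K3 : ℝ := 1 + (6 + 8 * K + K' + 3 * Real.log K1) with hK3
  have hK3' : 1 < K3 := by rw [hK3]; nlinarith
  have hK13 : 1 < K1 * K3 := by nlinarith
  refine ⟨3 * (K1 * K3) + 27, by linarith, fun w n hw hn x hx => ?_⟩
  have hn' : (2 : ℝ) ≤ n := by exact_mod_cast hn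
  set L := Real.log (n : ℝ) with hL
  have hlog2 : (0.69 : ℝ) < Real.log 2 := by
    have := Real.log_two_gt_d9
    linarith
  have hLb : (0.69 : ℝ) < L := hlog2.trans_le (Real.log_le_log (by norm_num) hn')
  have hL2 : (0.47 : ℝ) ≤ L ^ 2 := by nlinarith
  have hLL : L ≤ 1.5 * L ^ 2 := by nlinarith
  have h0 : 0 < K1 ^ w := by positivity
  set J0 := (K1 * K3) ^ w * (L ^ 2 + x) with hJ0
  set J := ⌈J0⌉₊ with hJ
  have hM1 : (1 : ℝ) ≤ (K1 * K3) ^ w := one_le_pow₀ hK13.le
  have hLx : 0 < L ^ 2 + x := by positivity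
  set ℓ := (({f | Loop (2 * n) f} : Set (ZMod (2 * n) → ℤ × ℤ)).ncard : ℝ) with hℓ
  have hm0 : 0 < 2 * n := by omega
  have hNZ : NeZero (2 * n) := ⟨by omega⟩
  -- one pair of arcs
  have hone : ∀ (s : ZMod (2 * n)) (a : ℕ), a < 2 * n →
      (({f | Loop (2 * n) f ∧ J ≤ CA w f s a (2 * n - 1 - a)} :
        Set (ZMod (2 * n) → ℤ × ℤ)).ncard : ℝ) ≤
      Real.exp (-x) * Real.exp (-(6 * L ^ 2)) * ℓ := by
    intro s a ha
    have h1 := tail_arc w (2 * n) s a (2 * n - 1 - a) J (by omega) hw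
    refine h1.trans ?_
    have e2 : Real.log ((2 * n : ℕ) : ℝ) ≤ 2 * L := by
      push_cast
      rw [Real.log_mul (by norm_num) (by positivity), ← hL]
      have : Real.log 2 ≤ L := Real.log_le_log (by norm_num) hn'
      linarith
    have e3 : 0 ≤ Real.log ((2 * n : ℕ) : ℝ) := Real.log_natCast_nonneg _
    have e4 : Real.log ((2 * n : ℕ) : ℝ) ^ 2 ≤ 4 * L ^ 2 := by nlinarith
    have h3 := hu (2 * n) (by omega) a (by omega)
    have h3' := hu (2 * n) (by omega) (2 * n - 1 - a) (by omega)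
    have hmu := mu_pos
    have hmu1 : 1 ≤ H981.mu := H981.one_le_mu
    have hup : ∀ c : ℕ, Real.exp (K * Real.log ((2 * n : ℕ) : ℝ) ^ 2) ≤ Real.exp (4 * K * L ^ 2) := by
      intro _
      refine Real.exp_le_exp.2 ?_
      nlinarith
    have h4 : (cn a : ℝ) * cn (2 * n - 1 - a) ≤ Real.exp ((8 * K + K') * L ^ 2) * ℓ := by
      calc (cn a : ℝ) * cn (2 * n - 1 - a) ≤ (H981.mu ^ a * Real.exp (4 * K * L ^ 2)) *
            (H981.mu ^ (2 * n - 1 - a) * Real.exp (4 * K * L ^ 2)) := by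
              refine mul_le_mul (h3.trans ?_) (h3'.trans ?_) (by positivity) (by positivity)
              · exact mul_le_mul_of_nonneg_left (hup 0) (by positivity)
              · exact mul_le_mul_of_nonneg_left (hup 0) (by positivity)
        _ = Real.exp (8 * K * L ^ 2) * H981.mu ^ (2 * n - 1) := by
            have e5 : a + (2 * n - 1 - a) = 2 * n - 1 := by omega
            rw [← e5, pow_add, show 8 * K * L ^ 2 = 4 * K * L ^ 2 + 4 * K * L ^ 2 by ring,
              Real.exp_add]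
            rw [e5]
            ring
        _ ≤ Real.exp (8 * K * L ^ 2) * H981.mu ^ (2 * n) := by
            refine mul_le_mul_of_nonneg_left ?_ (Real.exp_pos _).le
            exact pow_le_pow_right₀ hmu1 (by omega)
        _ ≤ Real.exp (8 * K * L ^ 2) * (Real.exp (K' * L ^ 2) * ℓ) :=
            mul_le_mul_of_nonneg_left (hlow n hn) (Real.exp_pos _).le
        _ = _ := by
            rw [add_mul, Real.exp_add]
            ring
    have h6 : K1 ^ w * Real.exp (-(J / K1 ^ w)) ≤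
        Real.exp (-x) * Real.exp (-((6 + 8 * K + K') * L ^ 2)) := by
      have e1 : K1 ^ w = Real.exp (w * Real.log K1) := by
        rw [Real.exp_nat_mul, Real.exp_log (by linarith)]
      have h7 : (K1 * K3) ^ w * (L ^ 2 + x) ≤ J := Nat.le_ceil _
      have h8 : K3 ^ w * (L ^ 2 + x) ≤ J / K1 ^ w := by
        rw [le_div_iff₀ h0]
        rw [mul_pow] at h7
        linarith
      have h9 : 1 + w * (6 + 8 * K + K' + 3 * Real.log K1) ≤ K3 ^ w :=
        one_add_mul_le_pow (by nlinarith) w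
      have hw' : (1 : ℝ) ≤ w := by exact_mod_cast hw
      have h10 : 1 + (6 + 8 * K + K') + 3 * w * Real.log K1 ≤ K3 ^ w := by nlinarith
      have h11 : (1 + (6 + 8 * K + K') + 3 * w * Real.log K1) * (L ^ 2 + x) ≤ J / K1 ^ w :=
        (mul_le_mul_of_nonneg_right h10 (by positivity)).trans h8
      calc K1 ^ w * Real.exp (-(J / K1 ^ w))
          ≤ Real.exp (w * Real.log K1) *
            Real.exp (-((1 + (6 + 8 * K + K') + 3 * w * Real.log K1) * (L ^ 2 + x))) := by
            rw [← e1]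
            exact mul_le_mul_of_nonneg_left (Real.exp_le_exp.2 (neg_le_neg h11)) h0.le
        _ = Real.exp (w * Real.log K1 +
            -((1 + (6 + 8 * K + K') + 3 * w * Real.log K1) * (L ^ 2 + x))) :=
            (Real.exp_add _ _).symm
        _ ≤ Real.exp (-x + -((6 + 8 * K + K') * L ^ 2)) := by
            refine Real.exp_le_exp.2 ?_
            have hwl : 0 ≤ w * Real.log K1 := by positivity
            have p1 : 0 ≤ (6 + 8 * K + K') * x := by positivity
            have p2 : 0 ≤ (w * Real.log K1) * x := by positivity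
            nlinarith
        _ = _ := Real.exp_add _ _
    calc K1 ^ w * Real.exp (-(J / K1 ^ w)) * (cn a * cn (2 * n - 1 - a))
        ≤ (Real.exp (-x) * Real.exp (-((6 + 8 * K + K') * L ^ 2))) *
          (Real.exp ((8 * K + K') * L ^ 2) * ℓ) := by
          refine mul_le_mul h6 h4 (by positivity) (by positivity)
      _ = Real.exp (-x) * (Real.exp (-((6 + 8 * K + K') * L ^ 2)) *
          Real.exp ((8 * K + K') * L ^ 2)) * ℓ := by ring
      _ = _ := by
          rw [← Real.exp_add]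
          congr 3
          ring
  -- all pairs of arcs
  set B : ZMod (2 * n) × ℕ → Set (ZMod (2 * n) → ℤ × ℤ) := fun p =>
    {f | Loop (2 * n) f ∧ J ≤ CA w f p.1 p.2 (2 * n - 1 - p.2)} with hB
  have hfin := Loop_finite (2 * n) hm0
  have hsub : ({f | Loop (2 * n) f ∧ ¬ ((∀ (s : ZMod (2 * n)) (a : ℕ),
          (XA w f s a : ℝ) ≤ (3 * (K1 * K3) + 27) ^ w * (L ^ 2 + x)) ∧
        ∀ l : ℕ, 1 ≤ l → (FA w f l : ℝ) ≤
          (3 * (K1 * K3) + 27) ^ w * ((n : ℝ) / l) * (L ^ 2 + x))} :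
      Set (ZMod (2 * n) → ℤ × ℤ)) ⊆
      ⋃ p ∈ (Finset.univ : Finset (ZMod (2 * n))) ×ˢ Finset.range (2 * n), B p := by
    rintro f ⟨hf, hbad⟩
    by_contra hc
    apply hbad
    have hall : ∀ (s : ZMod (2 * n)) (a : ℕ), a < 2 * n →
        (CA w f s a (2 * n - 1 - a) : ℝ) ≤ J0 := by
      intro s a ha
      by_contra hcc
      apply hc
      rw [Set.mem_iUnion₂]
      refine ⟨(s, a), Finset.mem_product.2 ⟨Finset.mem_univ _, Finset.mem_range.2 ha⟩, hf, ?_⟩
      simp only
      rw [hJ]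
      exact Nat.ceil_le.2 (not_le.1 hcc).le
    have hthree : (1 : ℝ) ≤ 3 ^ w := one_le_pow₀ (by norm_num)
    have hw3 : (3 : ℝ) ≤ 3 ^ w := le_self_pow₀ (by norm_num) (by omega)
    constructor
    · intro s a
      rcases Nat.lt_or_ge a (2 * n) with ha | ha
      · have h1 := XA_le w hm0 hf.2.1 s a
        have h2 : (XA w f s a : ℝ) ≤ CA w f (s - 1) a (2 * n - 1 - a) + 9 ^ w := by
          exact_mod_cast h1.trans (Nat.add_le_add_left (nine_pow w) _)
        have h3 := hall (s - 1) a ha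
        have h4 : (9 : ℝ) ^ w ≤ 27 ^ w * (L ^ 2 + x) := by
          have e1 : (27 : ℝ) ^ w = 9 ^ w * 3 ^ w := by rw [← mul_pow]; norm_num
          rw [e1, mul_assoc]
          refine le_mul_of_one_le_right (by positivity) ?_
          nlinarith
        have h5 : (K1 * K3) ^ w + 27 ^ w ≤ (3 * (K1 * K3) + 27) ^ w := by
          refine (pow_add_pow_le (by positivity) (by norm_num) (by omega)).trans ?_
          refine pow_le_pow_left₀ (by positivity) ?_ w
          linarith
        calc (XA w f s a : ℝ) ≤ J0 + 27 ^ w * (L ^ 2 + x) := by linarith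
          _ = ((K1 * K3) ^ w + 27 ^ w) * (L ^ 2 + x) := by rw [hJ0]; ring
          _ ≤ _ := mul_le_mul_of_nonneg_right h5 hLx.le
      · have : XA w f s a = 0 := by
          unfold XA
          rw [Set.ncard_eq_zero (Set.toFinite _), Set.eq_empty_iff_forall_notMem]
          rintro ⟨i, j⟩ ⟨-, h2, -⟩
          simp only at h2
          have := ZMod.val_lt (j - s)
          omega
        rw [this]
        push_cast
        positivity
    · intro l hl
      rcases Nat.lt_or_ge l n with hln | hln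
      · have h1 := FA_le w f hl (show l < 2 * n by omega)
        have h2 : (FA w f l : ℝ) ≤ ∑ k ∈ Finset.range ((2 * n - 1) / l + 1),
            (CA w f ((k * l : ℕ) : ZMod (2 * n)) l (2 * n - 1 - l) : ℝ) := by
          exact_mod_cast h1
        have h3 : ∑ k ∈ Finset.range ((2 * n - 1) / l + 1),
            (CA w f ((k * l : ℕ) : ZMod (2 * n)) l (2 * n - 1 - l) : ℝ) ≤
            ∑ k ∈ Finset.range ((2 * n - 1) / l + 1), J0 :=
          Finset.sum_le_sum fun k _ => hall _ l (by omega)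
        rw [Finset.sum_const, Finset.card_range, nsmul_eq_mul] at h3
        have hl0 : (0 : ℝ) < l := by exact_mod_cast hl
        have hln' : (l : ℝ) ≤ n := by exact_mod_cast hln.le
        have h4 : (((2 * n - 1) / l + 1 : ℕ) : ℝ) ≤ 3 * ((n : ℝ) / l) := by
          have h5 : (((2 * n - 1) / l : ℕ) : ℝ) ≤ ((2 * n - 1 : ℕ) : ℝ) / l := Nat.cast_div_le
          have h6 : ((2 * n - 1 : ℕ) : ℝ) ≤ 2 * n := by
            rw [Nat.cast_sub (by omega)]
            push_cast
            linarith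
          have h7 : ((2 * n - 1 : ℕ) : ℝ) / l ≤ 2 * n / l := by gcongr
          have h8 : (1 : ℝ) ≤ (n : ℝ) / l := by rwa [le_div_iff₀ hl0, one_mul]
          push_cast
          have h9 : 2 * (n : ℝ) / l = 2 * ((n : ℝ) / l) := by ring
          linarith
        have h10 : 3 * (K1 * K3) ^ w ≤ (3 * (K1 * K3) + 27) ^ w := by
          calc 3 * (K1 * K3) ^ w ≤ 3 ^ w * (K1 * K3) ^ w :=
                mul_le_mul_of_nonneg_right hw3 (by positivity)
            _ = (3 * (K1 * K3)) ^ w := (mul_pow _ _ _).symm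
            _ ≤ _ := pow_le_pow_left₀ (by positivity) (by linarith) w
        have hJ00 : 0 ≤ J0 := by rw [hJ0]; positivity
        calc (FA w f l : ℝ) ≤ (((2 * n - 1) / l + 1 : ℕ) : ℝ) * J0 := h2.trans h3
          _ ≤ (3 * ((n : ℝ) / l)) * J0 := mul_le_mul_of_nonneg_right h4 hJ00
          _ = (3 * (K1 * K3) ^ w) * (((n : ℝ) / l) * (L ^ 2 + x)) := by rw [hJ0]; ring
          _ ≤ (3 * (K1 * K3) + 27) ^ w * (((n : ℝ) / l) * (L ^ 2 + x)) :=
              mul_le_mul_of_nonneg_right h10 (by positivity)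
          _ = _ := by ring
      · rw [FA_zero w f hm0 (by omega)]
        push_cast
        positivity
  have hBfin : ∀ p, (B p).Finite := fun p => hfin.subset (fun f hf => hf.1)
  have hcard : ∀ T : Finset (ZMod (2 * n) × ℕ),
      ((⋃ p ∈ T, B p).ncard) ≤ ∑ p ∈ T, (B p).ncard := by
    intro T
    exact Finset.set_ncard_biUnion_le _ _
  have hUfin : (⋃ p ∈ (Finset.univ : Finset (ZMod (2 * n))) ×ˢ Finset.range (2 * n), B p).Finite :=
    Set.Finite.biUnion (Finset.finite_toSet _) (fun p _ => hBfin p)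
  have h1 := (Set.ncard_le_ncard hsub hUfin).trans (hcard _)
  have h2 : (((∑ p ∈ (Finset.univ : Finset (ZMod (2 * n))) ×ˢ Finset.range (2 * n),
      (B p).ncard : ℕ)) : ℝ) ≤ ∑ p ∈ (Finset.univ : Finset (ZMod (2 * n))) ×ˢ
        Finset.range (2 * n), Real.exp (-x) * Real.exp (-(6 * L ^ 2)) * ℓ := by
    push_cast
    refine Finset.sum_le_sum fun p hp => ?_
    rw [Finset.mem_product, Finset.mem_range] at hp
    exact hone p.1 p.2 hp.2
  rw [Finset.sum_const, Finset.card_product, Finset.card_univ, ZMod.card, Finset.card_range,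
    nsmul_eq_mul] at h2
  have h3 : (((2 * n) * (2 * n) : ℕ) : ℝ) ≤ Real.exp (6 * L ^ 2) := by
    push_cast
    have e1 : (n : ℝ) = Real.exp L := by rw [hL, Real.exp_log (by positivity)]
    have e2 : (2 * (n : ℝ)) * (2 * n) ≤ n ^ 4 := by
      have : (4 : ℝ) ≤ n ^ 2 := by nlinarith
      nlinarith [sq_nonneg (n : ℝ)]
    refine e2.trans ?_
    rw [e1, ← Real.exp_nat_mul]
    refine Real.exp_le_exp.2 ?_
    push_cast
    linarith
  have hℓ0 : 0 ≤ ℓ := Nat.cast_nonneg _
  calc _ ≤ (((∑ p ∈ (Finset.univ : Finset (ZMod (2 * n))) ×ˢ Finset.range (2 * n),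
      (B p).ncard : ℕ)) : ℝ) := by exact_mod_cast h1
    _ ≤ _ := h2
    _ ≤ Real.exp (6 * L ^ 2) * (Real.exp (-x) * Real.exp (-(6 * L ^ 2)) * ℓ) :=
        mul_le_mul_of_nonneg_right h3 (by positivity)
    _ = Real.exp (-x) * ((Real.exp (6 * L ^ 2) * Real.exp (-(6 * L ^ 2))) * ℓ) := by ring
    _ = Real.exp (-x) * ℓ := by
        rw [← Real.exp_add, add_neg_cancel, Real.exp_zero, one_mul]

end Run7.h738.PG
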