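import Pool.Agent.Run7.h738.PG.Grow

/-! # The numbers of the closed walks: growth -/

set_option autoImplicit false

namespace Run7.h738.PG

open scoped Classical
open Pool.Agent.W840.CT hiding tail_all
open Run7.h738.ND Run7.h738.BV

theorem rN_bdd : ∃ B : ℝ, 0 ≤ B ∧ ∀ N : ℕ, Pool.Agent.H739K.rN N ≤ B := by
  have h1 : (fun x : ℝ => Real.log x ^ 9) =o[Filter.atTop] (id : ℝ → ℝ) :=
    Real.isLittleO_pow_log_id_atTop
  have h2 := h1.bound (show (0 : ℝ) < 1 by norm_num)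
  have h3 := (tendsto_natCast_atTop_atTop (R := ℝ)).eventually h2
  obtain ⟨N0, hN0⟩ := Filter.eventually_atTop.1 h3
  set T := ∑ N ∈ Finset.range N0, Pool.Agent.H739K.rN N with hT
  have hnn : ∀ N, 0 ≤ Pool.Agent.H739K.rN N := fun N => Real.sqrt_nonneg _
  have hT0 : 0 ≤ T := Finset.sum_nonneg fun N _ => hnn N
  refine ⟨1 + T, by linarith, fun N => ?_⟩
  rcases Nat.lt_or_ge N N0 with h | h
  · have := Finset.single_le_sum (f := Pool.Agent.H739K.rN) (fun N _ => hnn N)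
      (Finset.mem_range.2 h)
    linarith
  · have h5 := hN0 N h
    rw [Real.norm_eq_abs, Real.norm_eq_abs, id, one_mul,
      abs_of_nonneg (show (0 : ℝ) ≤ (N : ℝ) from Nat.cast_nonneg N)] at h5
    have h6 := (le_abs_self _).trans h5
    unfold Pool.Agent.H739K.rN
    have h7 : Real.log N ^ 9 / N ≤ 1 := div_le_one_of_le₀ h6 (Nat.cast_nonneg N)
    have h8 : Real.sqrt (Real.log N ^ 9 / N) ≤ 1 := by
      rw [Real.sqrt_le_left (by norm_num)]
      simpa using h7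
    linarith

theorem PP_eq' (N : ℕ) (hN : 1 ≤ N) :
    (({f | Loop (2 * N) f} : Set (ZMod (2 * N) → ℤ × ℤ)).ncard : ℝ) = 4 * N * H981.PP N := by
  have e : H981.PP N = (({f | Loop (2 * N) f} : Set (ZMod (2 * N) → ℤ × ℤ)).ncard : ℝ) /
      (4 * (N : ℝ)) := by
    unfold H981.PP
    congr 2
  have : (0 : ℝ) < N := by exact_mod_cast hN
  rw [e]
  field_simp

theorem loops_ratio : ∃ C : ℝ, 0 ≤ C ∧ ∀ N : ℕ, 2 ≤ N →
    (({f | Loop (2 * (N + 1)) f} : Set (ZMod (2 * (N + 1)) → ℤ × ℤ)).ncard : ℝ) ≤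
      C * (({f | Loop (2 * N) f} : Set (ZMod (2 * N) → ℤ × ℤ)).ncard : ℝ) := by
  obtain ⟨C, hC⟩ := Pool.Agent.H739K.f1
  obtain ⟨B, hB0, hB⟩ := rN_bdd
  refine ⟨2 * (H981.mu ^ 2 + |C| * B), by positivity, fun N hN => ?_⟩
  have hP : 0 < H981.PP N := Pool.Agent.H739K.PP_pos hN
  have hN' : (2 : ℝ) ≤ N := by exact_mod_cast hN
  have h1 := (abs_le.1 (hC N hN)).2
  have h2 : C * Pool.Agent.H739K.rN N ≤ |C| * B :=
    mul_le_mul (le_abs_self C) (hB N) (Real.sqrt_nonneg _) (abs_nonneg C)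
  have h3 : H981.PP (N + 1) / H981.PP N ≤ H981.mu ^ 2 + |C| * B := by linarith
  rw [div_le_iff₀ hP] at h3
  rw [PP_eq' (N + 1) (by omega), PP_eq' N (by omega)]
  push_cast
  have h4 : 4 * ((N : ℝ) + 1) * H981.PP (N + 1) ≤
      4 * ((N : ℝ) + 1) * ((H981.mu ^ 2 + |C| * B) * H981.PP N) :=
    mul_le_mul_of_nonneg_left h3 (by positivity)
  have h5 : 0 ≤ (H981.mu ^ 2 + |C| * B) * H981.PP N := by positivity
  nlinarith

theorem CL_one : (LSf 1).card ≤ (CLf 1).card := by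
  refine Finset.card_le_card ?_
  intro B hB
  unfold CLf
  rw [Finset.mem_filter]
  refine ⟨hB, ?_⟩
  obtain ⟨h1, h2, h3, h4⟩ := mem_LSf.1 hB
  match B, h1, h2, h3 with
  | [p, q], _, h2, h3 =>
    simp only [List.head?_cons, Option.some.injEq] at h2
    subst h2
    rw [List.isChain_cons_cons] at h3
    have h5 := h3.1
    unfold adj at h5
    unfold Cl D
    simp only [List.getLastD_cons, List.getLastD_nil, Prod.fst_zero, Prod.snd_zero,
      sub_zero] at h5 ⊢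
    rw [Int.abs_eq_natAbs, Int.abs_eq_natAbs] at h5
    exact_mod_cast h5

/-- the growth of the number of the closed walks -/
theorem CL_grow : ∃ g : ℕ, 1 ≤ g ∧ ∀ n r : ℕ, (CLf (n + 2 * r)).card ≤ g ^ r * (CLf n).card := by
  obtain ⟨C, hC0, hC⟩ := loops_ratio
  refine ⟨16 + ⌈C⌉₊, by omega, ?_⟩
  have hone : ∀ n : ℕ, (CLf (n + 2)).card ≤ (16 + ⌈C⌉₊) * (CLf n).card := by
    intro n
    rcases Nat.mod_two_eq_zero_or_one n with hn | hn
    · rw [CLf_even (show (n + 2) % 2 = 0 by omega)]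
      simp
    rcases Nat.lt_or_ge n 3 with h3 | h3
    · have h1 : n = 1 := by omega
      subst h1
      have h4 : (CLf (1 + 2)).card ≤ (LSf (1 + 2 * 1)).card := Finset.card_filter_le _ _
      have h5 := LS_add 1 1
      rw [Set.ncard_eq_toFinset_card _ (LS_finite _),
        Set.ncard_eq_toFinset_card _ (LS_finite _)] at h5
      have h6 : (LSf (1 + 2 * 1)).card ≤ 16 ^ 1 * (LSf 1).card := h5
      have h7 := CL_one
      calc (CLf (1 + 2)).card ≤ 16 ^ 1 * (LSf 1).card := h4.trans h6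
        _ ≤ 16 * (CLf 1).card := by rw [pow_one]; exact Nat.mul_le_mul_left _ h7
        _ ≤ _ := Nat.mul_le_mul_right _ (by omega)
    · obtain ⟨N, rfl⟩ : ∃ N, n = 2 * N + 3 := ⟨(n - 3) / 2, by omega⟩
      have h4 := hC (N + 2) (by omega)
      rw [CLf_eq (show 1 ≤ 2 * N + 3 + 2 by omega), CLf_eq (show 1 ≤ 2 * N + 3 by omega)]
      have e1 : 2 * (N + 2 + 1) = 2 * N + 3 + 2 + 1 := by ring
      have e2 : 2 * (N + 2) = 2 * N + 3 + 1 := by ring
      rw [e1, e2] at h4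
      have h5 : (({f | Loop (2 * N + 3 + 2 + 1) f} :
          Set (ZMod (2 * N + 3 + 2 + 1) → ℤ × ℤ)).ncard : ℝ) ≤
          ((16 + ⌈C⌉₊ : ℕ) : ℝ) * (({f | Loop (2 * N + 3 + 1) f} :
          Set (ZMod (2 * N + 3 + 1) → ℤ × ℤ)).ncard : ℝ) := by
        refine h4.trans (mul_le_mul_of_nonneg_right ?_ (Nat.cast_nonneg _))
        push_cast
        have := Nat.le_ceil C
        linarith
      exact_mod_cast h5
  intro n r
  induction r with
  | zero => simp
  | succ r ih =>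
    have e : n + 2 * (r + 1) = n + 2 * r + 2 := by ring
    rw [e, pow_succ]
    calc _ ≤ (16 + ⌈C⌉₊) * (CLf (n + 2 * r)).card := hone _
      _ ≤ (16 + ⌈C⌉₊) * ((16 + ⌈C⌉₊) ^ r * (CLf n).card) := Nat.mul_le_mul_left _ ih
      _ = _ := by ring

end Run7.h738.PG
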