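import Pool.Agent.Run7.h738.PG.All

/-! # The area which is cut off along short chords of a self-avoiding polygon -/

set_option autoImplicit false

namespace Run7.h738.PG

open scoped Classical
open Pool.Agent.W840.CT Run7.h738.ND Run7.h738.NC

/-- twice the signed area of the closed polygonal line `f i, f (i+1), …, f (i+t), f i` -/
def sh {m : ℕ} (f : ZMod m → ℤ × ℤ) (i : ZMod m) (t : ℕ) : ℤ :=
  ∑ k ∈ Finset.range t,
    (((f (i + (k : ZMod m))).1 - (f i).1) * ((f (i + (k : ZMod m) + 1)).2 - (f i).2) -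
      ((f (i + (k : ZMod m))).2 - (f i).2) * ((f (i + (k : ZMod m) + 1)).1 - (f i).1))

/-- the total area cut off by the chords of length at most `w` and time lag at most `l` -/
noncomputable def cutA (w : ℕ) {m : ℕ} (f : ZMod m → ℤ × ℤ) (l : ℕ) : ℝ :=
  ∑ i ∈ Finset.range m, ∑ t ∈ (Finset.Icc 1 l).filter
    (fun t : ℕ => D (f (i : ZMod m)) (f ((i : ZMod m) + (t : ZMod m))) ≤ w),
      |(sh f (i : ZMod m) t : ℝ)| / 2

theorem far_le {m : ℕ} {f : ZMod m → ℤ × ℤ} (hf : Loop m f) (i : ZMod m) (k : ℕ) :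
    |(f (i + (k : ZMod m))).1 - (f i).1| + |(f (i + (k : ZMod m))).2 - (f i).2| ≤ k := by
  induction k with
  | zero => simp
  | succ k ih =>
    have h := hf.2.2 (i + (k : ZMod m))
    have e : i + ((k + 1 : ℕ) : ZMod m) = i + (k : ZMod m) + 1 := by push_cast; ring
    rw [e]
    have h1 := abs_add_le ((f (i + (k : ZMod m) + 1)).1 - (f (i + (k : ZMod m))).1)
      ((f (i + (k : ZMod m))).1 - (f i).1)
    have h2 := abs_add_le ((f (i + (k : ZMod m) + 1)).2 - (f (i + (k : ZMod m))).2)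
      ((f (i + (k : ZMod m))).2 - (f i).2)
    rw [sub_add_sub_cancel] at h1 h2
    push_cast
    linarith

theorem cross_le {a b c d : ℤ} {k : ℤ} (h1 : |a| + |b| ≤ k) (h2 : |c - a| + |d - b| = 1) :
    |a * d - b * c| ≤ k := by
  have e : a * d - b * c = a * (d - b) - b * (c - a) := by ring
  rw [e]
  have h3 : |a * (d - b) - b * (c - a)| ≤ |a| * |d - b| + |b| * |c - a| := by
    rw [← abs_mul, ← abs_mul]
    exact abs_sub _ _
  have h4 : |d - b| ≤ 1 := by have := abs_nonneg (c - a); linarith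
  have h5 : |c - a| ≤ 1 := by have := abs_nonneg (d - b); linarith
  have h6 := abs_nonneg a
  have h7 := abs_nonneg b
  have h8 := abs_nonneg (d - b)
  have h9 := abs_nonneg (c - a)
  nlinarith

theorem sh_le {m : ℕ} {f : ZMod m → ℤ × ℤ} (hf : Loop m f) (i : ZMod m) (t : ℕ) :
    |sh f i t| * 2 ≤ (t : ℤ) ^ 2 := by
  have h : ∀ t : ℕ, (∑ k ∈ Finset.range t, (k : ℤ)) * 2 ≤ (t : ℤ) ^ 2 := by
    intro t
    induction t with
    | zero => simp
    | succ t ih =>
      rw [Finset.sum_range_succ]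
      push_cast
      nlinarith
  refine le_trans ?_ (h t)
  refine mul_le_mul_of_nonneg_right ?_ (by norm_num)
  unfold sh
  refine (Finset.abs_sum_le_sum_abs _ _).trans (Finset.sum_le_sum fun k _ => ?_)
  refine cross_le (far_le hf i k) ?_
  have := hf.2.2 (i + (k : ZMod m))
  rw [sub_sub_sub_cancel_right, sub_sub_sub_cancel_right]
  exact this

theorem sq_sum (t l : ℕ) (h : t ≤ l) :
    (t : ℝ) ^ 2 = ∑ s ∈ Finset.range l, (2 * (s : ℝ) + 1) * (if s < t then 1 else 0) := by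
  have h1 : ∀ t : ℕ, (t : ℝ) ^ 2 = ∑ s ∈ Finset.range t, (2 * (s : ℝ) + 1) := by
    intro t
    induction t with
    | zero => simp
    | succ t ih =>
      rw [Finset.sum_range_succ, ← ih]
      push_cast
      ring
  rw [h1 t]
  simp only [mul_ite, mul_one, mul_zero]
  rw [← Finset.sum_filter]
  congr 1
  ext s
  simp only [Finset.mem_range, Finset.mem_filter]
  omega

/-- the pairs with time lag in `(s, l]` -/
theorem lag_le (w : ℕ) {m : ℕ} {f : ZMod m → ℤ × ℤ} {l s : ℕ} (hlm : 2 * l ≤ m) (hm : 0 < m)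
    (hs : s < l) :
    (∑ i ∈ Finset.range m, ∑ t ∈ (Finset.Icc 1 l).filter
      (fun t : ℕ => D (f (i : ZMod m)) (f ((i : ZMod m) + (t : ZMod m))) ≤ w),
        (if s < t then 1 else 0) : ℕ) ≤ FA w f s := by
  have hNZ : NeZero m := ⟨by omega⟩
  have e : (∑ i ∈ Finset.range m, ∑ t ∈ (Finset.Icc 1 l).filter
      (fun t : ℕ => D (f (i : ZMod m)) (f ((i : ZMod m) + (t : ZMod m))) ≤ w),
        (if s < t then 1 else 0) : ℕ) =
      ((Finset.range m ×ˢ Finset.Icc 1 l).filter (fun p : ℕ × ℕ =>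
        D (f (p.1 : ZMod m)) (f ((p.1 : ZMod m) + (p.2 : ZMod m))) ≤ w ∧ s < p.2)).card := by
    rw [Finset.card_filter, Finset.sum_product]
    refine Finset.sum_congr rfl fun i _ => ?_
    rw [Finset.sum_filter]
    refine Finset.sum_congr rfl fun t _ => ?_
    by_cases h1 : D (f (i : ZMod m)) (f ((i : ZMod m) + (t : ZMod m))) ≤ w
    · by_cases h2 : s < t
      · rw [if_pos h1, if_pos h2, if_pos ⟨h1, h2⟩]
      · rw [if_pos h1, if_neg h2, if_neg (fun h => h2 h.2)]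
    · rw [if_neg h1, if_neg (fun h => h1 h.1)]
  rw [e]
  unfold FA
  rw [← Set.ncard_coe_finset]
  refine Set.ncard_le_ncard_of_injOn
    (fun p => (((p.1 : ℕ) : ZMod m), ((p.1 : ℕ) : ZMod m) + ((p.2 : ℕ) : ZMod m))) ?_ ?_
    (Set.toFinite _)
  · rintro ⟨i, t⟩ hp
    rw [Finset.mem_coe, Finset.mem_filter, Finset.mem_product, Finset.mem_range,
      Finset.mem_Icc] at hp
    simp only at hp
    obtain ⟨⟨hi, ht1, ht2⟩, h1, h2⟩ := hp
    refine ⟨?_, ?_, h1⟩
    · simp only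
      have e1 : ((i : ℕ) : ZMod m) - (((i : ℕ) : ZMod m) + ((t : ℕ) : ZMod m)) =
          ((m - t : ℕ) : ZMod m) := by
        rw [Nat.cast_sub (by omega), ZMod.natCast_self]
        ring
      rw [e1, ZMod.val_natCast, Nat.mod_eq_of_lt (by omega)]
      omega
    · simp only
      rw [add_sub_cancel_left, ZMod.val_natCast, Nat.mod_eq_of_lt (by omega)]
      exact h2
  · rintro ⟨i, t⟩ hp ⟨i', t'⟩ hp' h
    rw [Finset.mem_coe, Finset.mem_filter, Finset.mem_product, Finset.mem_range,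
      Finset.mem_Icc] at hp hp'
    simp only [Prod.mk.injEq] at h hp hp'
    have e1 := nat_eq hp.1.1 hp'.1.1 h.1
    subst e1
    have e2 := nat_eq (by omega) (by omega) (add_left_cancel h.2)
    rw [e2]

theorem FA_zero_le (w : ℕ) {m : ℕ} (hm : 0 < m) {f : ZMod m → ℤ × ℤ} (hf : Loop m f) :
    FA w f 0 ≤ m * 9 ^ w := by
  have hNZ : NeZero m := ⟨by omega⟩
  unfold FA
  have h1 : ({q | 0 < (q.1 - q.2).val ∧ 0 < (q.2 - q.1).val ∧ D (f q.1) (f q.2) ≤ w} :
      Set (ZMod m × ZMod m)) ⊆ ⋃ j ∈ (Finset.univ : Finset (ZMod m)),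
        (fun i => (i, j)) '' ({i | D (f i) (f j) ≤ w} : Set (ZMod m)) := by
    rintro ⟨i, j⟩ ⟨-, -, h⟩
    rw [Set.mem_iUnion₂]
    exact ⟨j, Finset.mem_univ _, i, h, rfl⟩
  refine (Set.ncard_le_ncard h1 (Set.toFinite _)).trans ?_
  refine (Finset.set_ncard_biUnion_le _ _).trans ?_
  calc _ ≤ ∑ _j ∈ (Finset.univ : Finset (ZMod m)), 9 ^ w := by
        refine Finset.sum_le_sum fun j _ => ?_
        refine (Set.ncard_image_le (Set.toFinite _)).trans ?_
        exact (ball_le w hm hf.2.1 j).trans (nine_pow w)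
    _ = m * 9 ^ w := by
        rw [Finset.sum_const, Finset.card_univ, ZMod.card, smul_eq_mul]

theorem cut_le (w : ℕ) {n : ℕ} (hn : 0 < n) {f : ZMod (2 * n) → ℤ × ℤ} (hf : Loop (2 * n) f)
    {M : ℝ} (hM0 : 0 ≤ M) (hM : ∀ l : ℕ, 1 ≤ l → (FA w f l : ℝ) ≤ M * ((n : ℝ) / l)) {l : ℕ}
    (hl : 1 ≤ l) (hln : l ≤ n) : cutA w f l ≤ (9 ^ w + M) * (n * l) := by
  have hm : 0 < 2 * n := by omega
  have hn0 : (0 : ℝ) < n := by exact_mod_cast hn
  -- bound the areas by the squares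
  have h1 : cutA w f l ≤ ∑ i ∈ Finset.range (2 * n), ∑ t ∈ (Finset.Icc 1 l).filter
      (fun t : ℕ => D (f (i : ZMod (2 * n))) (f ((i : ZMod (2 * n)) + (t : ZMod (2 * n)))) ≤ w),
      (t : ℝ) ^ 2 / 4 := by
    unfold cutA
    refine Finset.sum_le_sum fun i _ => Finset.sum_le_sum fun t _ => ?_
    have h2 : |(sh f (i : ZMod (2 * n)) t : ℝ)| * 2 ≤ (t : ℝ) ^ 2 := by
      exact_mod_cast sh_le hf (i : ZMod (2 * n)) t
    linarith
  refine h1.trans ?_
  have h2 : ∑ i ∈ Finset.range (2 * n), ∑ t ∈ (Finset.Icc 1 l).filter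
      (fun t : ℕ => D (f (i : ZMod (2 * n))) (f ((i : ZMod (2 * n)) + (t : ZMod (2 * n)))) ≤ w),
      (t : ℝ) ^ 2 / 4 = (∑ s ∈ Finset.range l, (2 * (s : ℝ) + 1) *
        ((∑ i ∈ Finset.range (2 * n), ∑ t ∈ (Finset.Icc 1 l).filter
      (fun t : ℕ => D (f (i : ZMod (2 * n))) (f ((i : ZMod (2 * n)) + (t : ZMod (2 * n)))) ≤ w),
        (if s < t then 1 else 0) : ℕ) : ℝ)) / 4 := by
    rw [Finset.sum_div]
    have h3 : ∀ i ∈ Finset.range (2 * n), ∑ t ∈ (Finset.Icc 1 l).filter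
      (fun t : ℕ => D (f (i : ZMod (2 * n))) (f ((i : ZMod (2 * n)) + (t : ZMod (2 * n)))) ≤ w),
      (t : ℝ) ^ 2 / 4 = ∑ s ∈ Finset.range l, ((2 * (s : ℝ) + 1) *
        ((∑ t ∈ (Finset.Icc 1 l).filter
      (fun t : ℕ => D (f (i : ZMod (2 * n))) (f ((i : ZMod (2 * n)) + (t : ZMod (2 * n)))) ≤ w),
        (if s < t then 1 else 0) : ℕ) : ℝ)) / 4 := by
      intro i _
      push_cast
      simp only [Finset.mul_sum, Finset.sum_div]
      rw [Finset.sum_comm]
      refine Finset.sum_congr rfl fun t ht => ?_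
      rw [Finset.mem_filter, Finset.mem_Icc] at ht
      rw [sq_sum t l ht.1.2, Finset.sum_div]
    rw [Finset.sum_congr rfl h3, Finset.sum_comm]
    refine Finset.sum_congr rfl fun s _ => ?_
    rw [← Finset.sum_div, ← Finset.mul_sum]
    push_cast
    rfl
  rw [h2]
  have h4 : ∀ s ∈ Finset.range l, (2 * (s : ℝ) + 1) *
        ((∑ i ∈ Finset.range (2 * n), ∑ t ∈ (Finset.Icc 1 l).filter
      (fun t : ℕ => D (f (i : ZMod (2 * n))) (f ((i : ZMod (2 * n)) + (t : ZMod (2 * n)))) ≤ w),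
        (if s < t then 1 else 0) : ℕ) : ℝ) ≤ 3 * (9 ^ w + M) * n := by
    intro s hs
    rw [Finset.mem_range] at hs
    have h5 := lag_le w (f := f) (l := l) (s := s) (by omega : 2 * l ≤ 2 * n) hm hs
    have h5' : ((∑ i ∈ Finset.range (2 * n), ∑ t ∈ (Finset.Icc 1 l).filter
      (fun t : ℕ => D (f (i : ZMod (2 * n))) (f ((i : ZMod (2 * n)) + (t : ZMod (2 * n)))) ≤ w),
        (if s < t then 1 else 0) : ℕ) : ℝ) ≤ FA w f s := by exact_mod_cast h5
    rcases Nat.eq_zero_or_pos s with h0 | h0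
    · subst h0
      have h6 : (FA w f 0 : ℝ) ≤ (2 * n) * 9 ^ w := by exact_mod_cast FA_zero_le w hm hf
      have h9 : (0 : ℝ) < 9 ^ w := by positivity
      have h10 : 0 ≤ M * n := by positivity
      have h11 : 0 < (9 : ℝ) ^ w * n := by positivity
      push_cast at h5' ⊢
      nlinarith
    · have h6 := hM s h0
      have hs0 : (0 : ℝ) < s := by exact_mod_cast h0
      have hs1 : (1 : ℝ) ≤ s := by exact_mod_cast h0
      have h7 : (2 * (s : ℝ) + 1) * (M * ((n : ℝ) / s)) ≤ 3 * M * n := by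
        rw [show (2 * (s : ℝ) + 1) * (M * ((n : ℝ) / s)) =
          ((2 * (s : ℝ) + 1) / s) * (M * n) by ring]
        have h8 : (2 * (s : ℝ) + 1) / s ≤ 3 := by
          rw [div_le_iff₀ hs0]
          linarith
        have h9 : 0 ≤ M * n := by positivity
        nlinarith
      have h9 : 0 < (9 : ℝ) ^ w * n := by positivity
      calc _ ≤ (2 * (s : ℝ) + 1) * (M * ((n : ℝ) / s)) :=
            mul_le_mul_of_nonneg_left (h5'.trans h6) (by positivity)
        _ ≤ 3 * M * n := h7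
        _ ≤ _ := by nlinarith
  have h5 := Finset.sum_le_sum h4
  rw [Finset.sum_const, Finset.card_range, nsmul_eq_mul] at h5
  have h9 : 0 ≤ (9 ^ w + M) * (n * l) := by positivity
  calc _ ≤ ((l : ℝ) * (3 * (9 ^ w + M) * n)) / 4 := by
        refine div_le_div_of_nonneg_right h5 (by norm_num)
    _ = (3 / 4) * ((9 ^ w + M) * (n * l)) := by ring
    _ ≤ _ := by linarith

end Run7.h738.PG
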