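import Pool.Agent.Run7.h738.PG.Grow2

/-! # Extremal sites of the polygons -/

set_option autoImplicit false

namespace Run7.h738.PG

open scoped Classical
open Pool.Agent.W840.CT hiding tail_all
open Run7.h738.ND Run7.h738.BV
open Pool.Agent.TH546.SAW (W mem_W card_W)

/-- growth of the closed walks -/
def Gro (g : ℕ) : Prop := 1 ≤ g ∧ ∀ n r : ℕ, (CLf (n + 2 * r)).card ≤ g ^ r * (CLf n).card

theorem famL {g : ℕ} (hg : Gro g) {h : Pt → ℝ} (H : Steep h) (J : Finset ℕ) (w : ℕ) :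
    FamS J (SK h) Cl w g (fun n => (((w + 7) * (CLf n).card : ℕ) : ℝ)) := by
  refine ⟨fun k _ => thick_SK H k, fun k _ => ?_, fun n => ?_, fun n r => ?_⟩
  · show ¬ (h 0 + k < h 0)
    have : (0 : ℝ) ≤ k := Nat.cast_nonneg _
    linarith
  · exact cntS H J Cl w n (CLf n) (fun B hB h1 => Finset.mem_filter.2 ⟨hB, h1⟩)
  · have h' := hg.2 n r
    have h2 : (w + 7) * (CLf (n + 2 * r)).card ≤ g ^ r * ((w + 7) * (CLf n).card) := by
      calc _ ≤ (w + 7) * (g ^ r * (CLf n).card) := Nat.mul_le_mul_left _ h'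
        _ = _ := by ring
    exact_mod_cast h2

/-- the constant -/
noncomputable def Kc (g : ℕ) : ℝ := 6 * 2601 * 18432 * g * 13824 * 8

theorem Kc_gt {g : ℕ} (hg : 1 ≤ g) : 1 < Kc g := by
  have : (1 : ℝ) ≤ g := by exact_mod_cast hg
  unfold Kc
  nlinarith

/-- the closed walks -/
noncomputable def S0 (n : ℕ) : Finset (Fin (n + 1) → ℤ × ℤ) :=
  (W n).filter (fun ω => Cl (ω (Fin.last n)))

theorem loop_tail {g : ℕ} (hg : Gro g) {h : Pt → ℝ} (H : Steep h) (n : ℕ) {y x : ℝ} (hy : 0 ≤ y)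
    (hx : 0 ≤ x) :
    (((S0 n).filter (fun ω => (Kc g ^ 3) ^ (1 + y) * (1 + x) < nS h y ω)).card : ℝ) ≤
      Real.exp (-x) * ((CLf n).card : ℝ) := by
  set w := vy y with hw
  have hw1 : 1 ≤ w := vy_pos hy
  have hP1 : 1 ≤ Pf w := (cnt_w w hw1).2.1
  have hP : (1 : ℝ) ≤ Pf w := by exact_mod_cast hP1
  have hw7 : (1 : ℝ) ≤ ((w + 7 : ℕ) : ℝ) := by
    push_cast
    have : (0 : ℝ) ≤ w := Nat.cast_nonneg _
    linarith
  have hC : (1 : ℝ) ≤ Pf w * ((w + 7 : ℕ) : ℝ) := by nlinarith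
  have hT := thr (g := g) hg.1 w hw1 ((w + 7 : ℕ) : ℝ) 8 hw7
    (by exact_mod_cast w7 w hw1) x hx
  have h1 := conv (S0 n) ((CLf n).card : ℝ) (fun ω => nS h y ω)
    (G3 w * ∑ e ∈ Finset.range w, Kg g e) (2 * G3 w) (Pf w * ((w + 7 : ℕ) : ℝ)) hC
    (fun r hr => by
      refine ((famL hg H (Finset.range (n + 1)) w).tail' hw1 hg.1 r n hr
        (fun ω => ⌈topS h ω - h 0⌉₊) _ (fun ω hω => ?_)).trans ?_
      · rw [Finset.mem_filter] at hω
        unfold S0 at hω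
        rw [Finset.mem_filter] at hω
        obtain ⟨h2, h3, h4⟩ := selS H (mem_W.1 hω.1.1) (y := y)
        exact ⟨hω.1.1, h2, hω.1.2, h3, hω.2.trans h4⟩
      · rw [mul_assoc]
        refine mul_le_mul_of_nonneg_left ?_ (by linarith)
        push_cast
        exact le_refl _) x hx
  refine le_trans ?_ h1
  rw [Nat.cast_le]
  refine Finset.card_le_card ?_
  intro ω hω
  rw [Finset.mem_filter] at hω ⊢
  refine ⟨hω.1, lt_of_le_of_lt (hT.trans ?_) hω.2⟩
  refine mul_le_mul_of_nonneg_right ?_ (by linarith)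
  refine le_trans (le_of_eq ?_) (Kpow3 (Kc_gt hg.1) hy)
  rw [hw]
  unfold Kc
  norm_num

/-- a finite family of steep functions -/
theorem loop_fam {g : ℕ} (hg : Gro g) {ι : Type} (T : Finset ι) (h : ι → Pt → ℝ)
    (H : ∀ t ∈ T, Steep (h t))
    (hT : T.Nonempty) (n : ℕ) {y x : ℝ} (hy : 0 ≤ y) (hx : 0 ≤ x) :
    (((S0 n).filter (fun ω => ∃ t ∈ T, (Kc g ^ 3) ^ (1 + y) * (1 + (x + Real.log T.card)) <
      nS (h t) y ω)).card : ℝ) ≤ Real.exp (-x) * ((CLf n).card : ℝ) := by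
  have hT0 : (0 : ℝ) < T.card := by exact_mod_cast hT.card_pos
  have hT1 : (1 : ℝ) ≤ T.card := by exact_mod_cast hT.card_pos
  have hl := Real.log_nonneg hT1
  have hsub : (S0 n).filter (fun ω => ∃ t ∈ T, (Kc g ^ 3) ^ (1 + y) *
      (1 + (x + Real.log T.card)) < nS (h t) y ω) ⊆
      T.biUnion (fun t => (S0 n).filter (fun ω => (Kc g ^ 3) ^ (1 + y) *
        (1 + (x + Real.log T.card)) < nS (h t) y ω)) := by
    intro ω hω
    rw [Finset.mem_filter] at hω
    obtain ⟨h1, t, ht, h2⟩ := hω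
    rw [Finset.mem_biUnion]
    exact ⟨t, ht, Finset.mem_filter.2 ⟨h1, h2⟩⟩
  have h1 : (((S0 n).filter (fun ω => ∃ t ∈ T, (Kc g ^ 3) ^ (1 + y) *
      (1 + (x + Real.log T.card)) < nS (h t) y ω)).card : ℝ) ≤
      ∑ t ∈ T, (((S0 n).filter (fun ω => (Kc g ^ 3) ^ (1 + y) *
        (1 + (x + Real.log T.card)) < nS (h t) y ω)).card : ℝ) := by
    exact_mod_cast (Finset.card_le_card hsub).trans Finset.card_biUnion_le
  refine h1.trans ?_
  calc _ ≤ ∑ t ∈ T, Real.exp (-(x + Real.log T.card)) * ((CLf n).card : ℝ) :=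
        Finset.sum_le_sum (fun t ht => loop_tail hg (H t ht) n hy (by linarith))
    _ = T.card * (Real.exp (-(x + Real.log T.card)) * ((CLf n).card : ℝ)) := by
        rw [Finset.sum_const, nsmul_eq_mul]
    _ = Real.exp (-x) * ((CLf n).card : ℝ) := by
        rw [neg_add, Real.exp_add, Real.exp_neg (Real.log _), Real.exp_log hT0]
        field_simp

/-- **Extremal sites, all directions and all centres.** -/
theorem loop_all {g : ℕ} (hg : Gro g) (n : ℕ) {y x : ℝ} (hy : 0 ≤ y) (hx : 0 ≤ x) :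
    (((S0 n).filter (fun ω =>
      (∃ a b : ℝ, a ^ 2 + b ^ 2 = 1 ∧
        (4 * Kc g ^ 9) ^ (1 + y) * (1 + Real.log (n + 1) + x) < nS (ht a b) y ω) ∨
      (∃ k, (4 * Kc g ^ 9) ^ (1 + y) * (1 + Real.log (n + 1) + x) <
        nS (dz (ω k).1 (ω k).2) y ω))).card : ℝ) ≤
      Real.exp (-x) * ((CLf n).card : ℝ) := by
  have hn0 : (0 : ℝ) < n + 1 := by positivity
  have hlog : 0 ≤ Real.log (n + 1) := Real.log_nonneg (by linarith [Nat.cast_nonneg (α := ℝ) n])
  have hT0 : (0 : ℝ) < (Tn n).card := by exact_mod_cast (Tn_ne n).card_pos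
  have hlogT : Real.log (Tn n).card ≤ 2.5 + 2 * Real.log (n + 1) := by
    calc Real.log (Tn n).card ≤ Real.log (12 * ((n : ℝ) + 1) ^ 2) :=
          Real.log_le_log hT0 (Tn_card n)
      _ = Real.log 12 + 2 * Real.log (n + 1) := by
          rw [Real.log_mul (by norm_num) (by positivity), Real.log_pow]
          push_cast
          ring
      _ ≤ _ := by
          have h12 : Real.log 12 ≤ 2.5 := by
            rw [Real.log_le_iff_le_exp (by norm_num)]
            have h1 : (2.71 : ℝ) ≤ Real.exp 1 := by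
              have := Real.exp_one_gt_d9
              linarith
            calc (12 : ℝ) ≤ 2.71 ^ 2 * (1 + 0.64) := by norm_num
              _ ≤ Real.exp 1 ^ 2 * (Real.exp 0.25 * Real.exp 0.25) := by
                  refine mul_le_mul (pow_le_pow_left₀ (by norm_num) h1 2) ?_ (by norm_num)
                    (by positivity)
                  have h2 : (1 + 0.25 + 0.25 ^ 2 / 2 : ℝ) ≤ Real.exp 0.25 :=
                    Real.quadratic_le_exp_of_nonneg (by norm_num)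
                  nlinarith
              _ = Real.exp 2.5 := by
                  rw [← Real.exp_nat_mul, ← Real.exp_add, ← Real.exp_add]
                  congr 1
                  norm_num
          linarith
  have hK := Kc_gt hg.1
  have hthr : (Kc g ^ 3) ^ (1 + (y + 2)) * (1 + (x + Real.log (Tn n).card)) ≤
      (4 * Kc g ^ 9) ^ (1 + y) * (1 + Real.log (n + 1) + x) := by
    have h1 : (Kc g ^ 3) ^ (1 + (y + 2)) ≤ (Kc g ^ 9) ^ (1 + y) := by
      have e1 : (Kc g ^ 9 : ℝ) = (Kc g ^ 3) ^ (3 : ℝ) := by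
        rw [show (3 : ℝ) = ((3 : ℕ) : ℝ) by norm_num, Real.rpow_natCast, ← pow_mul]
      rw [e1, ← Real.rpow_mul (by positivity)]
      refine Real.rpow_le_rpow_of_exponent_le ?_ (by linarith)
      exact one_le_pow₀ hK.le
    have h2 : 1 + (x + Real.log (Tn n).card) ≤ 4 * (1 + Real.log (n + 1) + x) := by
      linarith
    have h3 : (4 : ℝ) ≤ 4 ^ (1 + y) := by
      calc (4 : ℝ) = 4 ^ (1 : ℝ) := (Real.rpow_one 4).symm
        _ ≤ _ := Real.rpow_le_rpow_of_exponent_le (by norm_num) (by linarith)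
    have h5 : 0 ≤ Real.log (Tn n).card := Real.log_nonneg (by exact_mod_cast (Tn_ne n).card_pos)
    rw [Real.mul_rpow (by norm_num) (by positivity)]
    have h4 : (0 : ℝ) ≤ (Kc g ^ 9) ^ (1 + y) := Real.rpow_nonneg (by positivity) _
    calc (Kc g ^ 3) ^ (1 + (y + 2)) * (1 + (x + Real.log (Tn n).card))
        ≤ (Kc g ^ 9) ^ (1 + y) * (4 * (1 + Real.log (n + 1) + x)) :=
          mul_le_mul h1 h2 (by linarith) h4
      _ = 4 * ((Kc g ^ 9) ^ (1 + y) * (1 + Real.log (n + 1) + x)) := by ring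
      _ ≤ 4 ^ (1 + y) * ((Kc g ^ 9) ^ (1 + y) * (1 + Real.log (n + 1) + x)) :=
          mul_le_mul_of_nonneg_right h3 (by positivity)
      _ = _ := by ring
  have hall := loop_fam hg (Tn n) (hf n) (fun t _ => by
    match t with
    | Sum.inl j => exact steep_ht (by rw [add_comm]; exact Real.sin_sq_add_cos_sq _)
    | Sum.inr z => exact steep_dz _ _) (Tn_ne n) n (show 0 ≤ y + 2 by linarith) hx
  refine le_trans ?_ hall
  rw [Nat.cast_le]
  refine Finset.card_le_card ?_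
  intro ω hω
  rw [Finset.mem_filter] at hω ⊢
  obtain ⟨h1, h2⟩ := hω
  refine ⟨h1, ?_⟩
  unfold S0 at h1
  rw [Finset.mem_filter] at h1
  have hSW := mem_W.1 h1.1
  rcases h2 with ⟨a, b, hab, h2⟩ | ⟨k, h2⟩
  · obtain ⟨j, hj, ha, hb⟩ := net n hab
    refine ⟨Sum.inl j, ?_, lt_of_le_of_lt hthr (lt_of_lt_of_le h2 ?_)⟩
    · unfold Tn
      rw [Finset.inl_mem_disjSum]
      exact Finset.mem_range.2 (by omega)
    · exact_mod_cast nS_net hSW ha hb y
  · refine ⟨Sum.inr (ω k), ?_, lt_of_le_of_lt hthr (lt_of_lt_of_le h2 ?_)⟩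
    · unfold Tn
      rw [Finset.inr_mem_disjSum, Finset.mem_product, Finset.mem_Icc, Finset.mem_Icc]
      have h3 := D_SW hSW k
      unfold D at h3
      simp only [Prod.fst_zero, Prod.snd_zero, sub_zero] at h3
      omega
    · exact_mod_cast nS_mono _ (by linarith) ω

/-! ### Polygons -/

/-- the walk of a polygon -/
def wk {n : ℕ} (f : ZMod (n + 1) → ℤ × ℤ) : Fin (n + 1) → ℤ × ℤ := fun i => f ((i.val : ℕ) : ZMod (n + 1))

theorem wk_mem {n : ℕ} (hn : 1 ≤ n) {f : ZMod (n + 1) → ℤ × ℤ} (hf : Loop (n + 1) f) :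
    wk f ∈ S0 n := by
  obtain ⟨h1, h2, h3⟩ := hf
  unfold S0
  rw [Finset.mem_filter, mem_W]
  refine ⟨⟨?_, ?_, ?_⟩, ?_⟩
  · unfold wk
    simp only [Fin.val_zero, Nat.cast_zero]
    exact h1
  · intro i
    unfold wk
    have := h3 ((i.val : ℕ) : ZMod (n + 1))
    simp only [Fin.val_succ, Fin.val_castSucc]
    push_cast
    exact this
  · intro i j hij
    have h4 := h2 hij
    exact Fin.ext (nat_eq i.2 j.2 h4)
  · unfold wk
    simp only [Fin.val_last]
    have h4 := h3 ((n : ℕ) : ZMod (n + 1))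
    have e2 : ((n : ℕ) : ZMod (n + 1)) + 1 = 0 := by exact_mod_cast ZMod.natCast_self (n + 1)
    rw [e2, h1] at h4
    unfold Cl D
    simp only [Prod.fst_zero, Prod.snd_zero, sub_zero, zero_sub, abs_neg] at h4 ⊢
    rw [Int.abs_eq_natAbs, Int.abs_eq_natAbs] at h4
    exact_mod_cast h4

theorem wk_inj {n : ℕ} {f f' : ZMod (n + 1) → ℤ × ℤ} (h : wk f = wk f') : f = f' := by
  funext i
  have h1 := congrFun h ⟨i.val, ZMod.val_lt i⟩
  unfold wk at h1
  simp only [ZMod.natCast_zmod_val] at h1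
  exact h1

/-- number of near-maximisers -/
noncomputable def nP (h : Pt → ℝ) (y : ℝ) {m : ℕ} (f : ZMod m → ℤ × ℤ) : ℕ :=
  ({i | ∀ j, h (f j) ≤ h (f i) + y} : Set (ZMod m)).ncard

theorem nP_le (h : Pt → ℝ) (y : ℝ) {n : ℕ} (f : ZMod (n + 1) → ℤ × ℤ) :
    nP h y f ≤ nS h y (wk f) := by
  unfold nP nS
  rw [← Set.ncard_coe_finset]
  refine Set.ncard_le_ncard_of_injOn (fun i => (⟨i.val, ZMod.val_lt i⟩ : Fin (n + 1))) ?_ ?_
    (Finset.finite_toSet _)
  · intro i hi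
    have hi' : ∀ j, h (f j) ≤ h (f i) + y := hi
    rw [Finset.mem_coe, Finset.mem_filter]
    refine ⟨Finset.mem_univ _, fun j => ?_⟩
    unfold wk
    simp only [ZMod.natCast_zmod_val]
    exact hi' _
  · intro i _ j _ hij
    simp only [Fin.mk.injEq] at hij
    exact ZMod.val_injective _ hij

/-- transfer -/
theorem transfer {n : ℕ} (hn : 1 ≤ n) (P : (ZMod (n + 1) → ℤ × ℤ) → Prop)
    (Q : (Fin (n + 1) → ℤ × ℤ) → Prop) (hPQ : ∀ f, Loop (n + 1) f → P f → Q (wk f)) :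
    (({f | Loop (n + 1) f ∧ P f} : Set (ZMod (n + 1) → ℤ × ℤ)).ncard) ≤
      ((S0 n).filter Q).card := by
  rw [← Set.ncard_coe_finset]
  refine Set.ncard_le_ncard_of_injOn wk ?_ ?_ (Finset.finite_toSet _)
  · rintro f ⟨h1, h2⟩
    rw [Finset.mem_coe, Finset.mem_filter]
    exact ⟨wk_mem hn h1, hPQ f h1 h2⟩
  · intro f _ f' _ h
    exact wk_inj h

/-- **Extremal sites of the uniform polygon.** -/
theorem poly_extr : ∃ K : ℝ, 1 < K ∧ ∀ m : ℕ, 2 ≤ m → ∀ y x : ℝ, 0 ≤ y → 0 ≤ x →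
    (∀ h : Pt → ℝ, Steep h →
      (({f | Loop m f ∧ K ^ (1 + y) * (1 + x) < nP h y f} : Set (ZMod m → ℤ × ℤ)).ncard : ℝ) ≤
        Real.exp (-x) * (({f | Loop m f} : Set (ZMod m → ℤ × ℤ)).ncard : ℝ)) ∧
    (({f | Loop m f ∧ ((∃ a b : ℝ, a ^ 2 + b ^ 2 = 1 ∧
          K ^ (1 + y) * (1 + Real.log m + x) < nP (ht a b) y f) ∨
        (∃ k, K ^ (1 + y) * (1 + Real.log m + x) < nP (dz (f k).1 (f k).2) y f))} :
      Set (ZMod m → ℤ × ℤ)).ncard : ℝ) ≤
        Real.exp (-x) * (({f | Loop m f} : Set (ZMod m → ℤ × ℤ)).ncard : ℝ) := by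
  obtain ⟨g, hg1, hg2⟩ := CL_grow
  have hg : Gro g := ⟨hg1, hg2⟩
  have hK := Kc_gt hg1
  have hK9 : Kc g ^ 3 ≤ 4 * Kc g ^ 9 := by
    have h1 : Kc g ^ 3 ≤ Kc g ^ 9 := pow_le_pow_right₀ hK.le (by norm_num)
    have h2 : 0 ≤ Kc g ^ 9 := by positivity
    linarith
  have hK3 : 1 < Kc g ^ 3 := one_lt_pow₀ hK (by norm_num)
  refine ⟨4 * Kc g ^ 9, by linarith, fun m hm y x hy hx => ?_⟩
  obtain ⟨n, rfl⟩ : ∃ n, m = n + 1 := ⟨m - 1, by omega⟩
  have hn : 1 ≤ n := by omega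
  rw [← CLf_eq hn]
  constructor
  · intro h H
    have h1 := transfer hn (fun f => (4 * Kc g ^ 9) ^ (1 + y) * (1 + x) < nP h y f)
      (fun ω => (Kc g ^ 3) ^ (1 + y) * (1 + x) < nS h y ω) (fun f _ h2 => by
        have h3 := nP_le h y f
        have h4 : (nP h y f : ℝ) ≤ nS h y (wk f) := by exact_mod_cast h3
        refine lt_of_le_of_lt ?_ (lt_of_lt_of_le h2 h4)
        refine mul_le_mul_of_nonneg_right ?_ (by linarith)
        exact Real.rpow_le_rpow (by positivity) hK9 (by linarith))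
    refine le_trans ?_ (loop_tail hg H n hy hx)
    exact_mod_cast h1
  · have h1 := transfer hn (fun f => (∃ a b : ℝ, a ^ 2 + b ^ 2 = 1 ∧
          (4 * Kc g ^ 9) ^ (1 + y) * (1 + Real.log ((n + 1 : ℕ) : ℝ) + x) < nP (ht a b) y f) ∨
        (∃ k, (4 * Kc g ^ 9) ^ (1 + y) * (1 + Real.log ((n + 1 : ℕ) : ℝ) + x) <
          nP (dz (f k).1 (f k).2) y f))
      (fun ω => (∃ a b : ℝ, a ^ 2 + b ^ 2 = 1 ∧
        (4 * Kc g ^ 9) ^ (1 + y) * (1 + Real.log (n + 1) + x) < nS (ht a b) y ω) ∨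
      (∃ k, (4 * Kc g ^ 9) ^ (1 + y) * (1 + Real.log (n + 1) + x) <
        nS (dz (ω k).1 (ω k).2) y ω)) (fun f _ h2 => by
        rcases h2 with ⟨a, b, hab, h3⟩ | ⟨k, h3⟩
        · refine Or.inl ⟨a, b, hab, lt_of_lt_of_le ?_ (Nat.cast_le.2 (nP_le (ht a b) y f))⟩
          push_cast at h3
          exact h3
        · refine Or.inr ⟨⟨k.val, ZMod.val_lt k⟩, ?_⟩
          have e : wk f ⟨k.val, ZMod.val_lt k⟩ = f k := by
            unfold wk
            simp only [ZMod.natCast_zmod_val]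
          rw [e]
          refine lt_of_lt_of_le ?_ (Nat.cast_le.2 (nP_le (dz (f k).1 (f k).2) y f))
          push_cast at h3
          exact h3)
    refine le_trans ?_ (loop_all hg n hy hx)
    exact_mod_cast h1

end Run7.h738.PG
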