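import Pool.Agent.Run7.h738.PG.Near
import Pool.Agent.Run7.h738.BV.Extr
import Pool.Agent.H739K.All1

/-! # The numbers of the closed walks: growth -/

set_option autoImplicit false

namespace Run7.h738.PG

open scoped Classical
open Pool.Agent.W840.CT hiding tail_all
open Run7.h738.ND Run7.h738.BV

/-- neighbours of the origin -/
def Cl (v : Pt) : Prop := D 0 v = 1

/-- the closed walks, as lists -/
noncomputable def CLf (n : ℕ) : Finset (List Pt) := (LSf n).filter (fun B => Cl (B.getLastD 0))

theorem par_chain : ∀ (l : List Pt) (p : Pt), (p :: l).IsChain adj →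
    (((p :: l).getLastD 0).1 + ((p :: l).getLastD 0).2) % 2 = (p.1 + p.2 + l.length) % 2
  | [], p, _ => by simp
  | q :: l, p, h => by
    rw [List.isChain_cons_cons] at h
    have ih := par_chain l q h.2
    have e : (p :: q :: l).getLastD 0 = (q :: l).getLastD 0 := by
      simp
    rw [e, ih]
    have h1 := h.1
    unfold adj at h1
    rw [Int.abs_eq_natAbs, Int.abs_eq_natAbs] at h1
    simp only [List.length_cons]
    push_cast
    omega

theorem par_last {n : ℕ} {B : List Pt} (hB : B ∈ LS n) :
    ((B.getLastD 0).1 + (B.getLastD 0).2) % 2 = (n : ℤ) % 2 := by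
  obtain ⟨h1, h2, h3, -⟩ := hB
  cases B with
  | nil => simp at h1
  | cons p l =>
    simp only [List.head?_cons, Option.some.injEq] at h2
    subst h2
    have h := par_chain l 0 h3
    simp only [List.length_cons] at h1
    have h4 : l.length = n := by omega
    rw [h4] at h
    simpa using h

theorem CLf_even {n : ℕ} (hn : n % 2 = 0) : CLf n = ∅ := by
  unfold CLf
  rw [Finset.filter_eq_empty_iff]
  intro B hB h
  have h1 := par_last (mem_LSf.1 hB)
  unfold Cl D at h
  simp only [Prod.fst_zero, Prod.snd_zero, sub_zero] at h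
  omega

/-- from closed walks to polygons -/
theorem CLf_le {n : ℕ} (hn : 1 ≤ n) :
    (CLf n).card ≤ ({f | Loop (n + 1) f} : Set (ZMod (n + 1) → ℤ × ℤ)).ncard := by
  rw [← Set.ncard_coe_finset]
  refine Set.ncard_le_ncard_of_injOn (fun B => fun i : ZMod (n + 1) => B.getD i.val 0) ?_ ?_
    (Loop_finite (n + 1) (by omega))
  · intro B hB
    rw [Finset.mem_coe] at hB
    unfold CLf at hB
    rw [Finset.mem_filter, mem_LSf] at hB
    obtain ⟨⟨h1, h2, h3, h4⟩, h5⟩ := hB
    have hlt : ∀ i : ZMod (n + 1), i.val < B.length := by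
      intro i
      rw [h1]
      exact ZMod.val_lt i
    have hget : ∀ i : ZMod (n + 1), B.getD i.val 0 = B[i.val]'(hlt i) := fun i =>
      List.getD_eq_getElem _ _ (hlt i)
    have h0 : B[0]'(by omega) = 0 := by
      cases B with
      | nil => simp at h1
      | cons p l => simpa using h2
    refine ⟨?_, ?_, ?_⟩
    · show B.getD (0 : ZMod (n + 1)).val 0 = 0
      rw [hget 0]
      simpa using h0
    · intro i j hij
      simp only at hij
      rw [hget i, hget j] at hij
      exact ZMod.val_injective _ ((List.Nodup.getElem_inj_iff h4).1 hij)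
    · intro i
      simp only
      rw [hget i, hget (i + 1)]
      rcases Nat.lt_or_ge i.val n with hi | hi
      · have e : (i + 1).val = i.val + 1 := by
          have e1 : i + 1 = ((i.val + 1 : ℕ) : ZMod (n + 1)) := by
            push_cast
            rw [ZMod.natCast_zmod_val]
          rw [e1, ZMod.val_natCast, Nat.mod_eq_of_lt (by omega)]
        have h6 := List.isChain_iff_getElem.1 h3 i.val (by omega)
        unfold adj at h6
        simp only [e]
        exact h6
      · have hi' : i.val = n := by
          have := ZMod.val_lt i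
          omega
        have e : i + 1 = 0 := by
          have : ((i.val : ℕ) : ZMod (n + 1)) = i := ZMod.natCast_zmod_val _
          rw [← this, hi']
          exact_mod_cast ZMod.natCast_self (n + 1)
        have h6 : B.getLastD 0 = B[n]'(by omega) := by
          have h7 : B.length - 1 = n := by omega
          rw [List.getLastD_eq_getLast?, List.getLast?_eq_getElem?, h7,
            List.getElem?_eq_getElem (by omega), Option.getD_some]
        rw [h6] at h5
        unfold Cl D at h5
        simp only [Prod.fst_zero, Prod.snd_zero, sub_zero] at h5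
        simp only [e, hi', ZMod.val_zero, h0, Prod.fst_zero, Prod.snd_zero, zero_sub, abs_neg]
        rw [Int.abs_eq_natAbs, Int.abs_eq_natAbs]
        exact_mod_cast h5
  · intro B hB B' hB' h
    rw [Finset.mem_coe] at hB hB'
    unfold CLf at hB hB'
    rw [Finset.mem_filter, mem_LSf] at hB hB'
    have h1 := hB.1.1
    have h1' := hB'.1.1
    apply List.ext_getElem (h1.trans h1'.symm)
    intro i hi hi'
    have h2 := congrFun h ((i : ℕ) : ZMod (n + 1))
    simp only at h2
    rw [ZMod.val_natCast, Nat.mod_eq_of_lt (by omega), List.getD_eq_getElem _ _ hi,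
      List.getD_eq_getElem _ _ hi'] at h2
    exact h2

/-- from polygons to closed walks -/
theorem le_CLf {n : ℕ} (hn : 1 ≤ n) :
    ({f | Loop (n + 1) f} : Set (ZMod (n + 1) → ℤ × ℤ)).ncard ≤ (CLf n).card := by
  rw [← Set.ncard_coe_finset]
  refine Set.ncard_le_ncard_of_injOn (fun f => lF f 0 n) ?_ ?_ (Finset.finite_toSet _)
  · intro f hf
    have hf' : Loop (n + 1) f := hf
    rw [Finset.mem_coe]
    unfold CLf
    rw [Finset.mem_filter, mem_LSf]
    refine ⟨lF_mem hf' 0 (by omega), ?_⟩
    have e : (lF f 0 n).getLastD 0 = f (0 + ((n : ℕ) : ZMod (n + 1))) - f 0 := by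
      unfold lF
      rw [List.range_succ, List.map_append, List.getLastD_eq_getLast?, List.getLast?_append]
      simp
    rw [e]
    have h3 := hf'.2.2 ((n : ℕ) : ZMod (n + 1))
    have e2 : ((n : ℕ) : ZMod (n + 1)) + 1 = 0 := by exact_mod_cast ZMod.natCast_self (n + 1)
    rw [e2, hf'.1] at h3
    rw [zero_add, hf'.1, sub_zero]
    unfold Cl D
    simp only [Prod.fst_zero, Prod.snd_zero, sub_zero, zero_sub, abs_neg] at h3 ⊢
    rw [Int.abs_eq_natAbs, Int.abs_eq_natAbs] at h3
    exact_mod_cast h3
  · intro f hf f' hf' h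
    exact arcs_inj (s := 0) (a := n) (b := 0) hf hf' (by omega) h (by
      unfold lG
      simp)

theorem CLf_eq {n : ℕ} (hn : 1 ≤ n) :
    (CLf n).card = ({f | Loop (n + 1) f} : Set (ZMod (n + 1) → ℤ × ℤ)).ncard :=
  le_antisymm (CLf_le hn) (le_CLf hn)

end Run7.h738.PG
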