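import Pool.Agent.Run7.h738.NC.Near
import Pool.Agent.TH508.LT.Fin2

/-! # Close pairs of sites of a self-avoiding polygon -/

set_option autoImplicit false

namespace Run7.h738.PG

open scoped Classical
open Pool.Agent.W840.CT Run7.h738.ND
open Pool.Agent.TH546.SG (CU2)

/-- rooted oriented polygons -/
def Loop (m : ℕ) (f : ZMod m → ℤ × ℤ) : Prop :=
  f 0 = 0 ∧ Function.Injective f ∧
    ∀ i : ZMod m, |(f (i + 1)).1 - (f i).1| + |(f (i + 1)).2 - (f i).2| = 1

/-- the arc of `a` steps which starts at the time `s` -/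
noncomputable def lF {m : ℕ} (f : ZMod m → ℤ × ℤ) (s : ZMod m) (a : ℕ) : List Pt :=
  (List.range (a + 1)).map (fun k : ℕ => f (s + (k : ZMod m)) - f s)

/-- the arc of `b` steps in the reverse direction -/
noncomputable def lG {m : ℕ} (f : ZMod m → ℤ × ℤ) (s : ZMod m) (b : ℕ) : List Pt :=
  (List.range (b + 1)).map (fun k : ℕ => f (s - (k : ZMod m)) - f s)

theorem nat_eq {m i j : ℕ} (hi : i < m) (hj : j < m) (h : (i : ZMod m) = (j : ZMod m)) : i = j := by
  rw [ZMod.natCast_eq_natCast_iff'] at h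
  rwa [Nat.mod_eq_of_lt hi, Nat.mod_eq_of_lt hj] at h

theorem lF_mem {m : ℕ} {f : ZMod m → ℤ × ℤ} (hf : Loop m f) (s : ZMod m) {a : ℕ} (ha : a < m) :
    lF f s a ∈ LS a := by
  obtain ⟨-, h2, h3⟩ := hf
  refine map_mem_LS (g := fun k : ℕ => f (s + (k : ZMod m)) - f s) (by simp) ?_ ?_
  · intro i hi
    rw [adj_sub]
    have := h3 (s + i)
    rw [add_assoc] at this
    push_cast
    exact this
  · intro i j hi hj h
    have h1 := h2 (sub_left_injective h)
    exact nat_eq (by omega) (by omega) (add_left_cancel h1)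

theorem lG_mem {m : ℕ} {f : ZMod m → ℤ × ℤ} (hf : Loop m f) (s : ZMod m) {b : ℕ} (hb : b < m) :
    lG f s b ∈ LS b := by
  obtain ⟨-, h2, h3⟩ := hf
  refine map_mem_LS (g := fun k : ℕ => f (s - (k : ZMod m)) - f s) (by simp) ?_ ?_
  · intro i hi
    rw [adj_sub]
    have := h3 (s - ((i + 1 : ℕ) : ZMod m))
    refine adj_comm ?_
    have e : s - ((i + 1 : ℕ) : ZMod m) + 1 = s - (i : ZMod m) := by
      push_cast
      ring
    rw [e] at this
    exact this
  · intro i j hi hj h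
    have h1 := h2 (sub_left_injective h)
    exact nat_eq (by omega) (by omega) (sub_right_injective h1)

theorem arcs_disj {m : ℕ} {f : ZMod m → ℤ × ℤ} (hf : Loop m f) (s : ZMod m) {a b : ℕ}
    (hab : a + b < m) : ∀ v ∈ lG f s b, v ∈ lF f s a → v = 0 := by
  intro v h1 h2
  unfold lG at h1
  unfold lF at h2
  rw [List.mem_map] at h1 h2
  obtain ⟨j, hj, rfl⟩ := h1
  obtain ⟨i, hi, h⟩ := h2
  rw [List.mem_range] at hi hj
  have h3 := hf.2.1 (sub_left_injective h)
  have h4 : ((i + j : ℕ) : ZMod m) = ((0 : ℕ) : ZMod m) := by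
    push_cast
    have : (i : ZMod m) = -(j : ZMod m) := by
      rw [sub_eq_add_neg] at h3
      exact add_left_cancel h3
    rw [this]
    ring
  have h5 := nat_eq (by omega) (by omega) h4
  have hj0 : j = 0 := by omega
  subst hj0
  simp

/-- close pairs of sites, one on each arc -/
noncomputable def CA (w : ℕ) {m : ℕ} (f : ZMod m → ℤ × ℤ) (s : ZMod m) (a b : ℕ) : ℕ :=
  ((Finset.range (a + 1) ×ˢ Finset.range (b + 1)).filter (fun q => q.1 ≠ 0 ∧ q.2 ≠ 0 ∧
    D (f (s + (q.1 : ZMod m))) (f (s - (q.2 : ZMod m))) ≤ w)).card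

theorem CA_le (w : ℕ) {m : ℕ} {f : ZMod m → ℤ × ℤ} (hf : Loop m f) (s : ZMod m) {a b : ℕ}
    (ha : a < m) (hb : b < m) : CA w f s a b ≤ KW w (lF f s a).toFinset (lG f s b).toFinset := by
  unfold CA KW
  refine Finset.card_le_card_of_injOn
    (fun q => (f (s + (q.1 : ZMod m)) - f s, f (s - (q.2 : ZMod m)) - f s)) ?_ ?_
  · rintro ⟨i, j⟩ hq
    rw [Finset.mem_coe, Finset.mem_filter, Finset.mem_product, Finset.mem_range,
      Finset.mem_range] at hq
    simp only at hq
    obtain ⟨⟨hi, hj⟩, h1, h2, h3⟩ := hq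
    simp only [Finset.coe_filter, Finset.mem_product, Finset.mem_erase, List.mem_toFinset,
      Set.mem_ofPred_eq]
    refine ⟨⟨⟨?_, ?_⟩, ?_, ?_⟩, ?_⟩
    · intro h4
      have h5 := hf.2.1 (sub_eq_zero.1 h4)
      have h6 : (i : ZMod m) = ((0 : ℕ) : ZMod m) := by
        push_cast
        exact add_eq_left.1 h5
      exact h1 (nat_eq (by omega) (by omega) h6)
    · unfold lF
      rw [List.mem_map]
      exact ⟨i, List.mem_range.2 hi, rfl⟩
    · intro h4
      have h5 := hf.2.1 (sub_eq_zero.1 h4)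
      have h6 : (j : ZMod m) = ((0 : ℕ) : ZMod m) := by
        push_cast
        exact sub_eq_self.1 h5
      exact h2 (nat_eq (by omega) (by omega) h6)
    · unfold lG
      rw [List.mem_map]
      exact ⟨j, List.mem_range.2 hj, rfl⟩
    · rw [D_sub]
      exact h3
  · rintro ⟨i, j⟩ hq ⟨i', j'⟩ hq' h4
    rw [Finset.mem_coe, Finset.mem_filter, Finset.mem_product, Finset.mem_range,
      Finset.mem_range] at hq hq'
    simp only [Prod.mk.injEq] at h4 hq hq'
    have e1 := add_left_cancel (hf.2.1 (sub_left_injective h4.1))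
    have e2 := sub_right_injective (hf.2.1 (sub_left_injective h4.2))
    rw [Prod.mk.injEq]
    exact ⟨nat_eq (by omega) (by omega) e1, nat_eq (by omega) (by omega) e2⟩

/-- the polygon is determined by its two arcs -/
theorem arcs_inj {m : ℕ} {f f' : ZMod m → ℤ × ℤ} (hf : Loop m f) (hf' : Loop m f')
    (s : ZMod m) {a b : ℕ} (hab : a + b + 1 = m) (h1 : lF f s a = lF f' s a)
    (h2 : lG f s b = lG f' s b) : f = f' := by
  have hm : NeZero m := ⟨by omega⟩
  unfold lF at h1
  unfold lG at h2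
  rw [List.map_inj_left] at h1 h2
  -- all increments agree
  have key : ∀ z : ZMod m, f z - f s = f' z - f' s := by
    intro z
    obtain ⟨k, hk, hz⟩ : ∃ k : ℕ, k < m ∧ z = s + (k : ZMod m) := by
      refine ⟨(z - s).val, ZMod.val_lt _, ?_⟩
      rw [ZMod.natCast_zmod_val]
      ring
    rcases Nat.lt_or_ge a k with hk2 | hk2
    · have h3 := h2 (m - k) (List.mem_range.2 (by omega))
      have e : s - ((m - k : ℕ) : ZMod m) = z := by
        rw [hz, Nat.cast_sub hk.le, ZMod.natCast_self]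
        ring
      rw [e] at h3
      exact h3
    · have h3 := h1 k (List.mem_range.2 (by omega))
      rw [← hz] at h3
      exact h3
  have h0 := key 0
  rw [hf.1, hf'.1, zero_sub, zero_sub, neg_inj] at h0
  funext z
  have := key z
  rw [h0] at this
  exact sub_left_injective this

theorem Loop_finite (m : ℕ) (hm : 0 < m) : ({f | Loop m f} : Set (ZMod m → ℤ × ℤ)).Finite := by
  refine Set.Finite.of_finite_image (f := fun f => (lF f 0 (m - 1), lG f 0 0)) ?_ ?_
  · refine ((LS_finite (m - 1)).prod (LS_finite 0)).subset ?_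
    rintro _ ⟨f, hf, rfl⟩
    exact ⟨lF_mem hf 0 (by omega), lG_mem hf 0 (by omega)⟩
  · intro f hf f' hf' h
    simp only [Prod.mk.injEq] at h
    exact arcs_inj hf hf' 0 (by omega) h.1 h.2

/-- the polygons with many close pairs across a pair of times -/
theorem arcs_card (w m : ℕ) (s : ZMod m) (a b J : ℕ) (hab : a + b + 1 = m) :
    ({f | Loop m f ∧ J ≤ CA w f s a b} : Set (ZMod m → ℤ × ℤ)).ncard ≤ (PW w a b J).ncard := by
  refine Set.ncard_le_ncard_of_injOn (fun f => (lF f s a, lG f s b)) ?_ ?_ (PW_finite _ _ _ _)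
  · rintro f ⟨h1, h2⟩
    exact ⟨lF_mem h1 s (by omega), lG_mem h1 s (by omega), arcs_disj h1 s (by omega),
      h2.trans (CA_le w h1 s (by omega) (by omega))⟩
  · rintro f ⟨h1, -⟩ f' ⟨h1', -⟩ h
    simp only [Prod.mk.injEq] at h
    exact arcs_inj h1 h1' s hab h.1 h.2

/-- the number of the polygons is not too small -/
theorem loops_lower : ∃ K : ℝ, 0 ≤ K ∧ ∀ n : ℕ, 2 ≤ n →
    H981.mu ^ (2 * n) ≤ Real.exp (K * Real.log n ^ 2) *
      (({f | Loop (2 * n) f} : Set (ZMod (2 * n) → ℤ × ℤ)).ncard : ℝ) := by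
  obtain ⟨K, hK, h⟩ := Pool.Agent.TH508.LT.sq_PP2
  refine ⟨K, hK, fun n hn => ?_⟩
  have h1 := (h n hn).1
  have e : H981.PP n = (({f | Loop (2 * n) f} : Set (ZMod (2 * n) → ℤ × ℤ)).ncard : ℝ) /
      (4 * (n : ℝ)) := by
    unfold H981.PP
    congr 2
  have hn' : (2 : ℝ) ≤ n := by exact_mod_cast hn
  have h2 : H981.PP n ≤ (({f | Loop (2 * n) f} : Set (ZMod (2 * n) → ℤ × ℤ)).ncard : ℝ) := by
    rw [e]
    exact div_le_self (Nat.cast_nonneg _) (by linarith)
  have h3 := h1.trans h2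
  rw [Real.exp_neg, ← div_eq_mul_inv, div_le_iff₀ (Real.exp_pos _)] at h3
  linarith

end Run7.h738.PG
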