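import Pool.Agent.Run7.h738.PG.Near

/-! # Close pairs of sites of a self-avoiding polygon: all arcs and all lags at once -/

set_option autoImplicit false

namespace Run7.h738.PG

open scoped Classical
open Pool.Agent.W840.CT Run7.h738.ND Run7.h738.NC
open Pool.Agent.TH546.SG (CU2)

/-- the tail for one pair of arcs, against `c_a c_b` -/
theorem tail_arc (w m : ℕ) (s : ZMod m) (a b J : ℕ) (hab : a + b + 1 = m) (hw : 1 ≤ w) :
    (({f | Loop m f ∧ J ≤ CA w f s a b} : Set (ZMod m → ℤ × ℤ)).ncard : ℝ) ≤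
    K1 ^ w * Real.exp (-(J / K1 ^ w)) * (cn a * cn b) := by
  have ha : 0 < Sl w := (cnt_w w hw).1
  have hC : 0 < Pf w := (cnt_w w hw).2.1
  have hG : 0 < G w := by unfold G; positivity
  have hGS : G w ≤ Sl w := by
    unfold Sl
    refine Nat.le_mul_of_pos_right _ ?_
    exact Finset.sum_pos (fun e _ => Kc_pos e) ⟨0, Finset.mem_range.2 hw⟩
  set r := (J - 3 * G w) / Sl w with hr
  have hmf : 0 < m := by omega
  set S := (({f | Loop m f ∧ J ≤ CA w f s a b} : Set (ZMod m → ℤ × ℤ)).ncard : ℝ) with hS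
  have hCr : (1 : ℝ) ≤ Pf w := by exact_mod_cast hC
  have hcn := cn_pos a
  have hcm := cn_pos b
  have hkey : (4 : ℝ) ^ r * S ≤ Pf w * ((cn a : ℝ) * cn b) := by
    rcases Nat.lt_or_ge J (3 * G w) with hJ | hJ
    · have hr0 : r = 0 := by
        rw [hr, Nat.sub_eq_zero_of_le hJ.le, Nat.zero_div]
      rw [hr0, pow_zero, one_mul]
      have h1 : ({f | Loop m f ∧ J ≤ CA w f s a b} : Set (ZMod m → ℤ × ℤ)).ncard ≤
          ((LS a) ×ˢ (LS b)).ncard := by
        refine Set.ncard_le_ncard_of_injOn (fun f => (lF f s a, lG f s b)) ?_ ?_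
          ((LS_finite a).prod (LS_finite b))
        · rintro f ⟨h1, -⟩
          exact ⟨lF_mem h1 s (by omega), lG_mem h1 s (by omega)⟩
        · rintro f ⟨h1, -⟩ f' ⟨h1', -⟩ h
          simp only [Prod.mk.injEq] at h
          exact arcs_inj h1 h1' s hab h.1 h.2
      rw [Set.ncard_prod] at h1
      have h2 := h1.trans (Nat.mul_le_mul (LS_le a) (LS_le b))
      have h4 : S ≤ cn a * cn b := by
        rw [hS]
        unfold cn
        exact_mod_cast h2
      have h5 : (0 : ℝ) ≤ cn a * cn b := by positivity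
      nlinarith
    · have h1 := PW_card w a b r hw
      have hle : Sl w * r + 3 * G w ≤ J := by
        have := Nat.mul_div_le (J - 3 * G w) (Sl w)
        rw [← hr] at this
        omega
      have h2 : ({f | Loop m f ∧ J ≤ CA w f s a b} : Set (ZMod m → ℤ × ℤ)).ncard ≤
          ({f | Loop m f ∧ Sl w * r + 3 * G w ≤ CA w f s a b} :
            Set (ZMod m → ℤ × ℤ)).ncard :=
        Set.ncard_le_ncard (fun q hq => ⟨hq.1, hle.trans hq.2⟩)
          ((Loop_finite m hmf).subset (fun q hq => hq.1))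
      have h3 := ((Nat.mul_le_mul_left (4 ^ r) (h2.trans (arcs_card w m s a b _ hab))).trans
        h1).trans (Nat.mul_le_mul_left _ (Nat.mul_le_mul (LS_le a) (LS_le b)))
      have h4 : (4 : ℝ) ^ r * S ≤ Pf w * ((Nat.card {ω : Fin (a + 1) → ℤ × ℤ // SW a ω} : ℕ) *
          (Nat.card {ω : Fin (b + 1) → ℤ × ℤ // SW b ω} : ℕ) : ℝ) := by
        rw [hS]
        exact_mod_cast h3
      exact h4
  have h6 := four_pow_ge r
  have hSl : (0 : ℝ) < Sl w := by exact_mod_cast ha
  have hJr : (J : ℝ) / Sl w - 4 ≤ r := by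
    have h1 : J < Sl w * (r + 1) + 3 * G w := by
      have := Nat.lt_mul_div_succ (J - 3 * G w) ha
      rw [← hr] at this
      omega
    have h2 : J < Sl w * (r + 4) := by nlinarith
    have h3 : (J : ℝ) < Sl w * (r + 4) := by exact_mod_cast h2
    have h4 : (J : ℝ) / Sl w < r + 4 := by
      rw [div_lt_iff₀ hSl]
      linarith
    linarith
  have hSlK : (Sl w : ℝ) ≤ K1 ^ w := by
    have h1 : Sl w ≤ 15129 ^ w * 294912 ^ w := Nat.mul_le_mul (G_pow w hw) (Kc_sum w)
    have h2 : (Sl w : ℝ) ≤ 15129 ^ w * 294912 ^ w := by exact_mod_cast h1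
    refine h2.trans ?_
    rw [← mul_pow]
    refine pow_le_pow_left₀ (by norm_num) ?_ w
    unfold K1
    norm_num
  have hPK : (Pf w : ℝ) * Real.exp 4 ≤ K1 ^ w := by
    have h1 : (Pf w : ℝ) ≤ 13824 ^ w := by exact_mod_cast Pf_pow w
    have h2 : Real.exp 4 ≤ 81 := by
      have h3 : Real.exp 1 ≤ 3 := by
        have := Real.exp_one_lt_d9
        linarith
      calc Real.exp 4 = Real.exp 1 ^ 4 := by rw [← Real.exp_nat_mul]; norm_num
        _ ≤ 3 ^ 4 := pow_le_pow_left₀ (Real.exp_pos _).le h3 4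
        _ = 81 := by norm_num
    have h3 : Real.exp 4 ≤ (81 : ℝ) ^ w := h2.trans (le_self_pow₀ (by norm_num) (by omega))
    calc (Pf w : ℝ) * Real.exp 4 ≤ 13824 ^ w * 81 ^ w :=
          mul_le_mul h1 h3 (Real.exp_pos _).le (by positivity)
      _ = (13824 * 81) ^ w := by rw [mul_pow]
      _ ≤ K1 ^ w := by
          refine pow_le_pow_left₀ (by norm_num) ?_ w
          unfold K1
          norm_num
  have h7 : Real.exp r * S ≤ Pf w * ((cn a : ℝ) * cn b) :=
    (mul_le_mul_of_nonneg_right h6 (Nat.cast_nonneg _)).trans hkey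
  have h8 : S = Real.exp (-(r : ℝ)) * (Real.exp r * S) := by
    rw [← mul_assoc, ← Real.exp_add, neg_add_cancel, Real.exp_zero, one_mul]
  have hK1 : 0 < K1 ^ w := by
    have := K1_pos
    positivity
  have h9 : Real.exp (-(r : ℝ)) ≤ Real.exp 4 * Real.exp (-(J / K1 ^ w)) := by
    rw [← Real.exp_add]
    refine Real.exp_le_exp.2 ?_
    have h10 : (J : ℝ) / K1 ^ w ≤ J / Sl w :=
      div_le_div_of_nonneg_left (Nat.cast_nonneg _) hSl hSlK
    linarith
  have hcc : (0 : ℝ) ≤ cn a * cn b := by positivity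
  calc S = Real.exp (-(r : ℝ)) * (Real.exp r * S) := h8
    _ ≤ Real.exp (-(r : ℝ)) * (Pf w * ((cn a : ℝ) * cn b)) :=
        mul_le_mul_of_nonneg_left h7 (Real.exp_pos _).le
    _ ≤ (Real.exp 4 * Real.exp (-(J / K1 ^ w))) * (Pf w * ((cn a : ℝ) * cn b)) :=
        mul_le_mul_of_nonneg_right h9 (by positivity)
    _ = (Pf w * Real.exp 4) * Real.exp (-(J / K1 ^ w)) * (cn a * cn b) := by ring
    _ ≤ _ := by
        refine mul_le_mul_of_nonneg_right (mul_le_mul_of_nonneg_right hPK (Real.exp_pos _).le) hcc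

/-- pairs of close sites which are far from each other along the polygon -/
noncomputable def FA (w : ℕ) {m : ℕ} (f : ZMod m → ℤ × ℤ) (l : ℕ) : ℕ :=
  ({q | l < (q.1 - q.2).val ∧ l < (q.2 - q.1).val ∧ D (f q.1) (f q.2) ≤ w} :
    Set (ZMod m × ZMod m)).ncard

theorem val_le {m : ℕ} (hm : 0 < m) (t : ℕ) : ((t : ℕ) : ZMod m).val ≤ t := by
  rw [ZMod.val_natCast]
  exact Nat.mod_le _ _

theorem FA_le (w : ℕ) {m : ℕ} (f : ZMod m → ℤ × ℤ) {l : ℕ} (hl : 1 ≤ l) (hlm : l < m) :
    FA w f l ≤ ∑ k ∈ Finset.range ((m - 1) / l + 1), CA w f ((k * l : ℕ) : ZMod m) l (m - 1 - l) := by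
  have hm : NeZero m := ⟨by omega⟩
  set T : Finset (ZMod m × ZMod m) := (Finset.range ((m - 1) / l + 1)).biUnion (fun k =>
    (((Finset.range (l + 1) ×ˢ Finset.range (m - 1 - l + 1)).filter (fun q => q.1 ≠ 0 ∧ q.2 ≠ 0 ∧
      D (f (((k * l : ℕ) : ZMod m) + (q.1 : ZMod m))) (f (((k * l : ℕ) : ZMod m) - (q.2 : ZMod m)))
        ≤ w))).image (fun p => (((k * l : ℕ) : ZMod m) + (p.1 : ZMod m),
          ((k * l : ℕ) : ZMod m) - (p.2 : ZMod m)))) with hT
  have h1 : ({q | l < (q.1 - q.2).val ∧ l < (q.2 - q.1).val ∧ D (f q.1) (f q.2) ≤ w} :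
      Set (ZMod m × ZMod m)) ⊆ (T : Set (ZMod m × ZMod m)) := by
    rintro ⟨i, j⟩ ⟨h1, h2, h3⟩
    simp only at h1 h2 h3
    set v := (i - 1).val with hv
    have hvm : v < m := ZMod.val_lt _
    set k := v / l with hk
    set t := v % l with ht
    have hvt : v = k * l + t := by
      rw [hk, ht, Nat.mul_comm]
      exact (Nat.div_add_mod v l).symm
    have htl : t < l := Nat.mod_lt _ (by omega)
    have hi : i = ((k * l : ℕ) : ZMod m) + ((t + 1 : ℕ) : ZMod m) := by
      have e1 : ((v : ℕ) : ZMod m) = i - 1 := ZMod.natCast_zmod_val _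
      have e2 : i = ((v : ℕ) : ZMod m) + 1 := by rw [e1]; ring
      rw [e2, hvt]
      push_cast
      ring
    set s : ZMod m := ((k * l : ℕ) : ZMod m) with hs
    set u := (s - j).val with hu
    have hum : u < m := ZMod.val_lt _
    have hj : j = s - (u : ZMod m) := by
      rw [hu, ZMod.natCast_zmod_val]
      ring
    have hu1 : u ≠ 0 := by
      intro h0
      rw [h0, Nat.cast_zero, sub_zero] at hj
      have e : i - j = ((t + 1 : ℕ) : ZMod m) := by
        rw [hi, hj]
        ring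
      rw [e] at h1
      have := val_le (m := m) (by omega) (t + 1)
      omega
    have hu2 : u < m - 1 - l + 1 := by
      by_contra hc
      have hj2 : j = s + ((m - u : ℕ) : ZMod m) := by
        rw [Nat.cast_sub hum.le, ZMod.natCast_self, hj]
        ring
      rcases Nat.lt_or_ge (t + 1) (m - u) with h4 | h4
      · have e : j - i = ((m - u - (t + 1) : ℕ) : ZMod m) := by
          rw [Nat.cast_sub h4.le, hi, hj2]
          ring
        rw [e] at h2
        have := val_le (m := m) (by omega) (m - u - (t + 1))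
        omega
      · have e : i - j = ((t + 1 - (m - u) : ℕ) : ZMod m) := by
          rw [Nat.cast_sub h4, hi, hj2]
          ring
        rw [e] at h1
        have := val_le (m := m) (by omega) (t + 1 - (m - u))
        omega
    rw [Finset.mem_coe, hT, Finset.mem_biUnion]
    refine ⟨k, ?_, ?_⟩
    · rw [Finset.mem_range]
      have : v / l ≤ (m - 1) / l := Nat.div_le_div_right (by omega)
      omega
    · rw [Finset.mem_image]
      refine ⟨(t + 1, u), ?_, ?_⟩
      · rw [Finset.mem_filter, Finset.mem_product, Finset.mem_range, Finset.mem_range]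
        refine ⟨⟨by omega, hu2⟩, by omega, hu1, ?_⟩
        simp only
        rw [← hs, ← hi, ← hj]
        exact h3
      · simp only
        rw [← hs, ← hi, ← hj]
  unfold FA
  refine (Set.ncard_le_ncard h1 (Finset.finite_toSet T)).trans ?_
  rw [Set.ncard_coe_finset, hT]
  refine Finset.card_biUnion_le.trans (Finset.sum_le_sum fun k _ => ?_)
  exact Finset.card_image_le

theorem FA_zero (w : ℕ) {m : ℕ} (f : ZMod m → ℤ × ℤ) {l : ℕ} (hm : 0 < m) (hlm : m ≤ 2 * l) :
    FA w f l = 0 := by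
  have : NeZero m := ⟨by omega⟩
  unfold FA
  rw [Set.ncard_eq_zero (Set.toFinite _), Set.eq_empty_iff_forall_notMem]
  rintro ⟨i, j⟩ ⟨h1, h2, -⟩
  simp only at h1 h2
  have hne : i - j ≠ 0 := by
    intro h
    rw [h, ZMod.val_zero] at h1
    omega
  have h3 : (j - i).val = m - (i - j).val := by
    rw [← neg_sub, ZMod.neg_val, if_neg hne]
  have := ZMod.val_lt (i - j)
  omega

end Run7.h738.PG
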